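import Mathlib
import Pool.Agent.Helper669.MMain
import Pool.Agent.H504.BP.Comb

/-!
# A finite support iteration adding the pieces of a maximal independent set, with few conditions

This is the iteration of `Pool.Agent.H504.BP.Iter`, where only names given by countable sets of
conditions are used, so that the conditions can be counted.

`J` is the index set of the iteration, `e : K → J` enumerates the coordinates at which an `F_σ`
set is added; at the other coordinates Cohen reals are added.
-/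

namespace Pool.Agent.H504.BQ

open Pool.Agent.H504.BP Cardinal Pool.Agent.Helper669.Iter Pool.Agent.Helper669.Forcing Pool.Agent.Helper669.GBase
  Pool.Agent.Helper669.Forcing2

set_option linter.unusedSectionVars false

universe u

variable {J K : Type u} [LinearOrder J] [WellFoundedLT J] [LinearOrder K]

/-- the functions at the coordinates `e k` -/
def ev (e : K → J) (w : Om (WithTop J)) : K → ℕ → ℕ := fun k => w (e k : WithTop J)

/-- the promise to be independent of the pieces in `s` -/
def RI (Safe : ℕ → List (List Bool) → Prop) (e : K → J) (s : Finset K) : Pr (WithTop J) :=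
  fun n m => {w | ∃ M, Psi Safe (ev e w) s n M (dec m)}

/-- pairs of a condition and a name, over a set `B` of conditions -/
abbrev PN (B : Set (Rep (WithTop J))) : Type u := ↥B × (ℕ → Set ↥B)

/-- the promise to catch the point named by `z.2` if the condition `z.1` is in the generic
filter -/
def RN (B : Set (Rep (WithTop J))) (ξ : WithTop J) (z : PN B) : Pr (WithTop J) := fun _ m =>
  {w | (∃ q : ↥B, w ∈ bs q.1 ξ ∧ ¬ Compat q z.1) ∨
    ∃ σ ∈ dec m, ∃ q : ↥B, w ∈ bs q.1 ξ ∧ q ∈ Init σ z.2}

def Ok (Safe : ℕ → List (List Bool) → Prop) (e : K → J) (B : Set (Rep (WithTop J))) (k : K)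
    (F : Finset (PN B)) : Prop :=
  ∀ q ∈ B, ∀ n : ℕ, ∀ s : Finset K, (∀ β ∈ s, β < k) → ∃ q' ∈ B, q' ≤ q ∧ ∃ m : ℕ,
    (∀ z ∈ F, bs q' (e k : WithTop J) ⊆ RN B (e k : WithTop J) z n m) ∧
      bs q' (e k : WithTop J) ⊆ RI Safe e s n m

def Fm (Safe : ℕ → List (List Bool) → Prop) (e : K → J) (B : Set (Rep (WithTop J))) (k : K)
    (C : Set (PN B)) : Prop :=
  (∀ z ∈ C, ∀ l, (z.2 l).Countable) ∧
    ∀ F : Finset (PN B), (∀ z ∈ F, z ∈ C) → F.Nonempty → Ok Safe e B k F

theorem exists_max (Safe : ℕ → List (List Bool) → Prop) (e : K → J)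
    (B : Set (Rep (WithTop J))) (k : K) :
    ∃ C : Set (PN B), Fm Safe e B k C ∧ ∀ D, C ⊆ D → Fm Safe e B k D → D ⊆ C := by
  classical
  obtain ⟨C, _, hC⟩ := zorn_subset_nonempty {C : Set (PN B) | Fm Safe e B k C} (by
      intro c hc hchain hne
      refine ⟨⋃₀ c, ⟨fun z hz => ?_, ?_⟩, fun s hs => Set.subset_sUnion_of_mem hs⟩
      · obtain ⟨s, hs, hzs⟩ := hz
        exact (hc hs).1 z hzs
      intro F hF hFne
      have hex : ∃ s ∈ c, ∀ X ∈ F, X ∈ s := by
        clear hFne
        induction F using Finset.induction_on with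
        | empty =>
          obtain ⟨s, hs⟩ := hne
          exact ⟨s, hs, by simp⟩
        | insert a F _ ih =>
          obtain ⟨s, hs, h1⟩ := ih fun X hX => hF X (Finset.mem_insert_of_mem hX)
          obtain ⟨t, ht, h2⟩ := hF a (Finset.mem_insert_self a F)
          rcases hchain.total hs ht with h | h
          · refine ⟨t, ht, fun X hX => ?_⟩
            rcases Finset.mem_insert.1 hX with rfl | hX
            · exact h2
            · exact h (h1 X hX)
          · refine ⟨s, hs, fun X hX => ?_⟩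
            rcases Finset.mem_insert.1 hX with rfl | hX
            · exact h h2
            · exact h1 X hX
      obtain ⟨s, hs, h1⟩ := hex
      exact (hc hs).2 F h1 hFne) ∅ ⟨fun z hz => absurd hz (Set.notMem_empty _),
        fun F hF hne => by
          obtain ⟨z, hz⟩ := hne
          exact absurd (hF z hz) (Set.notMem_empty _)⟩
  exact ⟨C, hC.prop, fun D h1 h2 => hC.le_of_ge h2 h1⟩

/-- the chosen maximal family -/
noncomputable def Bf (Safe : ℕ → List (List Bool) → Prop) (e : K → J)
    (B : Set (Rep (WithTop J))) (k : K) : Set (PN B) := (exists_max Safe e B k).choose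

theorem Bf_fm (Safe : ℕ → List (List Bool) → Prop) (e : K → J)
    (B : Set (Rep (WithTop J))) (k : K) : Fm Safe e B k (Bf Safe e B k) :=
  (exists_max Safe e B k).choose_spec.1

theorem Bf_max {Safe : ℕ → List (List Bool) → Prop} {e : K → J}
    {B : Set (Rep (WithTop J))} {k : K} {D : Set (PN B)} (h : Bf Safe e B k ⊆ D)
    (h' : Fm Safe e B k D) : D ⊆ Bf Safe e B k :=
  (exists_max Safe e B k).choose_spec.2 D h h'

def Step (Safe : ℕ → List (List Bool) → Prop) (e : K → J) (B : Set (Rep (WithTop J)))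
    (ξ : WithTop J) : Set (Pr (WithTop J)) :=
  {R | ∃ k : K, (e k : WithTop J) = ξ ∧
    ((∃ s : Finset K, (∀ β ∈ s, β < k) ∧ R = RI Safe e s) ∨
      ∃ z ∈ Bf Safe e B k, R = RN B ξ z)}

/-- the admissible promises, by recursion -/
noncomputable def RR (Safe : ℕ → List (List Bool) → Prop) (e : K → J) :
    WithTop J → Set (Pr (WithTop J)) :=
  WellFoundedLT.fix (motive := fun _ : WithTop J => Set (Pr (WithTop J))) fun ξ f =>
    Step Safe e {r | (∀ η, ∀ h : η < ξ, ∀ R ∈ r.pr η, R ∈ f η h) ∧ Below r ξ} ξ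

theorem RR_eq (Safe : ℕ → List (List Bool) → Prop) (e : K → J) (ξ : WithTop J) :
    RR Safe e ξ = Step Safe e (Vd (RR Safe e) ξ) ξ := by
  rw [RR, WellFoundedLT.fix_eq]
  congr 1
  ext r
  constructor
  · rintro ⟨h1, h2⟩
    refine ⟨fun η R hR => ?_, h2⟩
    by_cases hη : η < ξ
    · exact h1 η hη R hR
    · rw [(h2 η (not_lt.1 hη)).2] at hR
      exact absurd hR (Finset.notMem_empty R)
  · rintro ⟨h1, h2⟩
    exact ⟨fun η _ R hR => h1 η R hR, h2⟩

/-! ### Conditions given by finite parts of points -/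

open Classical in
/-- the condition given by the values of `w` up to `M` at the coordinates in `s` -/
noncomputable def stC (e : K → J) (w : Om (WithTop J)) (s : Finset K) (M : ℕ) :
    Rep (WithTop J) where
  st η := if ∃ β ∈ s, (e β : WithTop J) = η then (List.range (M + 1)).map (w η) else []
  pr _ := ∅
  fin := by
    refine ((s.finite_toSet).image fun β => (e β : WithTop J)).subset fun η hη => ?_
    by_cases h : ∃ β ∈ s, (e β : WithTop J) = η
    · obtain ⟨β, hβ, h⟩ := h
      exact ⟨β, hβ, h⟩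
    · simp [h] at hη

theorem mem_bs_stC (e : K → J) (w : Om (WithTop J)) (s : Finset K) (M : ℕ) (ξ : WithTop J) :
    w ∈ bs (stC e w s M) ξ := by
  classical
  intro η _
  refine ⟨fun i hi => ?_, fun R hR => absurd hR (Finset.notMem_empty R)⟩
  by_cases h : ∃ β ∈ s, (e β : WithTop J) = η
  · simp only [stC, h, if_true, List.length_map, List.length_range] at hi ⊢
    rw [List.getD_eq_getElem _ _ (by simpa using hi)]
    simp
  · simp [stC, h] at hi

theorem stC_eq {e : K → J} {v w : Om (WithTop J)} {s : Finset K} {M : ℕ} {ξ : WithTop J}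
    (h : v ∈ bs (stC e w s M) ξ) {β : K} (hβ : β ∈ s) (hξ : (e β : WithTop J) < ξ) {j : ℕ}
    (hj : j ≤ M) : v (e β : WithTop J) j = w (e β : WithTop J) j := by
  classical
  have h1 := (h (e β) hξ).1 j
  have h2 : ∃ γ ∈ s, (e γ : WithTop J) = (e β : WithTop J) := ⟨β, hβ, rfl⟩
  simp only [stC, h2, if_true, List.length_map, List.length_range] at h1
  have h3 := h1 (by omega)
  rw [h3, List.getD_eq_getElem _ _ (by simp; omega)]
  simp

theorem stC_st {e : K → J} {w : Om (WithTop J)} {s : Finset K} {M : ℕ} {β : K} (hβ : β ∈ s)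
    {j : ℕ} (hj : j ≤ M) : j < ((stC e w s M).st (e β : WithTop J)).length ∧
      ((stC e w s M).st (e β : WithTop J)).getD j 0 = w (e β : WithTop J) j := by
  classical
  have h2 : ∃ γ ∈ s, (e γ : WithTop J) = (e β : WithTop J) := ⟨β, hβ, rfl⟩
  simp only [stC, h2, if_true, List.length_map, List.length_range]
  refine ⟨by omega, ?_⟩
  rw [List.getD_eq_getElem _ _ (by simp; omega)]
  simp

theorem stC_mem {RR' : WithTop J → Set (Pr (WithTop J))} {e : K → J} {w : Om (WithTop J)}
    {s : Finset K} {M : ℕ} {ξ : WithTop J} (h : ∀ β ∈ s, (e β : WithTop J) < ξ) :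
    stC e w s M ∈ Vd RR' ξ := by
  classical
  refine ⟨fun η R hR => absurd hR (Finset.notMem_empty R), fun η hη => ⟨?_, rfl⟩⟩
  have h2 : ¬ ∃ β ∈ s, (e β : WithTop J) = η := by
    rintro ⟨β, hβ, rfl⟩
    exact absurd (h β hβ) (not_lt.2 hη)
  simp [stC, h2]

/-! ### The promises are good -/

theorem RI_mono {Safe : ℕ → List (List Bool) → Prop} {e : K → J} {s t : Finset K} (h : s ⊆ t)
    (n m : ℕ) : RI Safe e t n m ⊆ RI Safe e s n m := by
  rintro w ⟨M, hM⟩
  exact ⟨M, hM.mono h⟩

section

variable {Safe : ℕ → List (List Bool) → Prop} {e : K → J}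

theorem RI_mem {k : K} {s : Finset K} (hs : ∀ β ∈ s, β < k) :
    RI Safe e s ∈ RR Safe e (e k : WithTop J) := by
  rw [RR_eq]
  exact ⟨k, rfl, Or.inl ⟨s, hs, rfl⟩⟩

theorem RN_mem {k : K} {z : PN (Vd (RR Safe e) (e k : WithTop J))}
    (hz : z ∈ Bf Safe e (Vd (RR Safe e) (e k : WithTop J)) k) :
    RN (Vd (RR Safe e) (e k : WithTop J)) (e k) z ∈ RR Safe e (e k : WithTop J) := by
  rw [RR_eq Safe e (e k : WithTop J)]
  exact ⟨k, rfl, Or.inr ⟨z, hz, rfl⟩⟩

theorem ok_empty (he : StrictMono e) (hanti : ∀ n m L, n ≤ m → Safe m L → Safe n L)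
    (hnil : ∀ n, Safe n []) (k : K) :
    Ok Safe e (Vd (RR Safe e) (e k : WithTop J)) k ∅ := by
  classical
  intro q hq n s hs
  rcases s.eq_empty_or_nonempty with rfl | hne
  · refine ⟨q, hq, le_rfl, Encodable.encode (∅ : Finset (List Bool)), by simp, fun w _ => ?_⟩
    refine ⟨n, ?_⟩
    rw [dec_encode]
    exact Psi.empty_empty hnil _ n
  · set β := s.max' hne with hβ
    have hβs : β ∈ s := s.max'_mem hne
    set t := s.erase β with ht
    have hst : insert β t = s := Finset.insert_erase hβs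
    have ht' : ∀ γ ∈ t, γ < β := by
      intro γ hγ
      obtain ⟨h1, h2⟩ := Finset.mem_erase.1 hγ
      exact lt_of_le_of_ne (s.le_max' γ h2) h1
    have hβk : (e β : WithTop J) < (e k : WithTop J) := WithTop.coe_lt_coe.2 (he (hs β hβs))
    refine ⟨Helper669.MMain.addG q (e β : WithTop J) {RI Safe e t}, Helper669.MMain.addG_mem hq hβk ?_,
      Helper669.MMain.addG_le _ _ _, Encodable.encode (∅ : Finset (List Bool)), by simp, fun w hw => ?_⟩
    · intro R hR
      rw [Finset.mem_singleton] at hR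
      rw [hR]
      exact RI_mem ht'
    · obtain ⟨_, h2⟩ := hw (e β : WithTop J) hβk
      set m0 := max n (q.st (e β : WithTop J)).length with hm0
      obtain ⟨M, hM⟩ := h2 (RI Safe e t) (Helper669.MMain.addG_pr (Finset.mem_singleton_self _)) m0
        (le_max_right _ _)
      refine ⟨M, ?_⟩
      rw [dec_encode, ← hst]
      exact Psi.empty_insert hanti (le_max_left n _) (u := ev e w) hM

theorem exists_promises {k : K} (F : Finset (Pr (WithTop J)))
    (hF : ∀ R ∈ F, R ∈ RR Safe e (e k : WithTop J)) (he : StrictMono e) :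
    ∃ s : Finset K, (∀ β ∈ s, β < k) ∧ ∃ Z : Finset (PN (Vd (RR Safe e) (e k : WithTop J))),
      (∀ z ∈ Z, z ∈ Bf Safe e (Vd (RR Safe e) (e k : WithTop J)) k) ∧
      ∀ R ∈ F, ∀ n m, ∀ w ∈ RI Safe e s n m,
        (∀ z ∈ Z, w ∈ RN (Vd (RR Safe e) (e k : WithTop J)) (e k) z n m) → w ∈ R n m := by
  classical
  induction F using Finset.induction_on with
  | empty => exact ⟨∅, by simp, ∅, by simp, by simp⟩
  | insert R F _ ih =>
    obtain ⟨s, hs, Z, hZ, h⟩ := ih fun R' hR' => hF R' (Finset.mem_insert_of_mem hR')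
    have hR := hF R (Finset.mem_insert_self R F)
    rw [RR_eq Safe e (e k : WithTop J)] at hR
    obtain ⟨k', hk', hR⟩ := hR
    have hkk : k' = k := he.injective (WithTop.coe_injective hk')
    subst hkk
    rcases hR with ⟨t, ht, rfl⟩ | ⟨z, hz, rfl⟩
    · refine ⟨s ∪ t, ?_, Z, hZ, ?_⟩
      · intro β hβ
        rcases Finset.mem_union.1 hβ with h1 | h1
        · exact hs β h1
        · exact ht β h1
      · intro R' hR' n m w hw hwZ
        rcases Finset.mem_insert.1 hR' with rfl | hR'
        · exact RI_mono Finset.subset_union_right n m hw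
        · exact h R' hR' n m w (RI_mono Finset.subset_union_left n m hw) hwZ
    · refine ⟨s, hs, insert z Z, ?_, ?_⟩
      · intro z' hz'
        rcases Finset.mem_insert.1 hz' with rfl | hz'
        · exact hz
        · exact hZ z' hz'
      · intro R' hR' n m w hw hwZ
        rcases Finset.mem_insert.1 hR' with rfl | hR'
        · exact hwZ z (Finset.mem_insert_self z Z)
        · exact h R' hR' n m w hw fun z' hz' => hwZ z' (Finset.mem_insert_of_mem hz')

theorem good (he : StrictMono e) (hanti : ∀ n m L, n ≤ m → Safe m L → Safe n L)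
    (hnil : ∀ n, Safe n []) (ξ : WithTop J) : Good (RR Safe e) ξ where
  opn R hR n m w hw := by
    rw [RR_eq] at hR
    obtain ⟨k, rfl, hR⟩ := hR
    rcases hR with ⟨s, hs, rfl⟩ | ⟨z, hz, rfl⟩
    · obtain ⟨M, hM⟩ := hw
      refine ⟨stC e w s M, stC_mem fun β hβ => WithTop.coe_lt_coe.2 (he (hs β hβ)),
        mem_bs_stC e w s M _, fun v hv => ⟨M, ?_⟩⟩
      refine hM.congr fun β hβ j hj => ?_
      exact (stC_eq hv hβ (WithTop.coe_lt_coe.2 (he (hs β hβ))) hj).symm
    · rcases hw with ⟨q, hq, hc⟩ | ⟨σ, hσ, q, hq, hi⟩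
      · exact ⟨q.1, q.2, hq, fun v hv => Or.inl ⟨q, hv, hc⟩⟩
      · exact ⟨q.1, q.2, hq, fun v hv => Or.inr ⟨σ, hσ, q, hv, hi⟩⟩
  amal F hF n q hq := by
    classical
    rcases F.eq_empty_or_nonempty with rfl | hne
    · exact ⟨q, hq, le_rfl, 0, by simp⟩
    obtain ⟨R0, hR0⟩ := hne
    have hR0' := hF R0 hR0
    rw [RR_eq] at hR0'
    obtain ⟨k, rfl, _⟩ := hR0'
    obtain ⟨s, hs, Z, hZ, h⟩ := exists_promises F hF he
    have hok : Ok Safe e (Vd (RR Safe e) (e k : WithTop J)) k Z := by
      rcases Z.eq_empty_or_nonempty with rfl | hZne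
      · exact ok_empty he hanti hnil k
      · exact (Bf_fm Safe e _ k).2 Z hZ hZne
    obtain ⟨q', hq', hle, m, h1, h2⟩ := hok q hq n s hs
    exact ⟨q', hq', hle, m, fun R hR w hw => h R hR n m w (h2 hw) fun z hz => h1 z hz hw⟩

end

end Pool.Agent.H504.BQ
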