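import Mathlib
import Pool.Agent.H504.BQ.Iter

/-!
# The extension: a maximal independent set which is a union of few `F_σ` sets
-/

namespace Pool.Agent.H504.BQ

open Pool.Agent.H504.BP Cardinal Pool.Agent.Helper669.Iter Pool.Agent.Helper669.Forcing Pool.Agent.Helper669.GBase
  Pool.Agent.Helper669.Forcing2

set_option linter.unusedSectionVars false

universe u

variable {J K : Type u} [LinearOrder J] [WellFoundedLT J] [LinearOrder K]
  {Safe : ℕ → List (List Bool) → Prop} {e : K → J}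

/-- the standing hypotheses -/
structure Hyp (Safe : ℕ → List (List Bool) → Prop) (e : K → J) : Prop where
  he : StrictMono e
  hanti : ∀ n m L, n ≤ m → Safe m L → Safe n L
  hnil : ∀ n, Safe n []

/-- the poset -/
abbrev PB (Safe : ℕ → List (List Bool) → Prop) (e : K → J) : Type u := Cd (RR Safe e)

theorem Hyp.good (h : Hyp Safe e) (ξ : WithTop J) : Good (RR Safe e) ξ :=
  Pool.Agent.H504.BQ.good h.he h.hanti h.hnil ξ

/-- the name of the generic function at the coordinate `e k` -/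
def Sn (Safe : ℕ → List (List Bool) → Prop) (e : K → J) (k : K) (n a : ℕ) :
    Set (PB Safe e) :=
  {p | n < (p.1.st (e k : WithTop J)).length ∧ (p.1.st (e k : WithTop J)).getD n 0 = a}

theorem down_Sn (k : K) (n a : ℕ) : Down (Sn Safe e k n a) := by
  rintro p ⟨h1, h2⟩ q hq
  obtain ⟨h3, h4⟩ := st_mono hq (e k : WithTop J) h1
  exact ⟨h3, by rw [h4]; exact h2⟩

theorem Sn_unique {k : K} {n a a' : ℕ} {q : PB Safe e} (h : q ∈ meets (Sn Safe e k n a))
    (h' : q ∈ meets (Sn Safe e k n a')) : a = a' := by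
  obtain ⟨r, hr, h1⟩ := exists_of_meets (down_Sn k n a) h
  obtain ⟨r', hr', h2⟩ := exists_of_meets (down_Sn k n a') (down_meets _ _ h' r hr)
  have h3 := down_Sn k n a r h1 r' hr'
  rw [← h3.2, ← h2.2]

theorem exists_longP (hH : Hyp Safe e) (η : J) (q : PB Safe e) (N : ℕ) :
    ∃ r : PB Safe e, r ≤ q ∧ N ≤ (r.1.st (η : WithTop J)).length := by
  obtain ⟨r', h1, h2, h3⟩ := exists_long hH.good q.2 (WithTop.coe_lt_top η) N
  exact ⟨⟨r', h1⟩, h2, h3⟩

theorem isFun_Sn (hH : Hyp Safe e) (k : K) (p : PB Safe e) : p ∈ IsFun (Sn Safe e k) := by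
  constructor
  · intro n
    refine mem_fex.2 fun q _ => ?_
    obtain ⟨r, hr, h⟩ := exists_longP hH (e k) q (n + 1)
    exact ⟨r, hr, (r.1.st (e k : WithTop J)).getD n 0, meets_of_mem ⟨h, rfl⟩⟩
  · intro n a a'
    exact mem_fimp.2 fun q _ h => ⟨q, le_rfl, Sn_unique h.1 h.2⟩

/-! ### Names at a stage -/

/-- the restriction of a condition to a stage -/
noncomputable def resB (ξ : WithTop J) (p : PB Safe e) : ↥(Vd (RR Safe e) ξ) :=
  ⟨res p.1 ξ, res_mem p.2.1 ξ⟩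

/-- a condition of a stage as a condition of the poset -/
def toP {ξ : WithTop J} (q : ↥(Vd (RR Safe e) ξ)) : PB Safe e := ⟨q.1, q.2.1, q.2.2.mono le_top⟩

theorem resB_le {ξ : WithTop J} {p : PB Safe e} {q : ↥(Vd (RR Safe e) ξ)} (h : p ≤ toP q) :
    resB ξ p ≤ q := res_le (r := p.1) (q := q.1) h q.2.2

theorem resB_mono {ξ : WithTop J} {p q : PB Safe e} (h : p ≤ q) : resB ξ p ≤ resB ξ q :=
  res_mono (r := p.1) (q := q.1) h ξ

theorem le_toP_resB (ξ : WithTop J) (p : PB Safe e) : p ≤ toP (resB ξ p) := le_res p.1 ξ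

theorem toP_mono {ξ : WithTop J} {p q : ↥(Vd (RR Safe e) ξ)} (h : p ≤ q) :
    (toP p : PB Safe e) ≤ toP q := h

theorem exists_glue {ξ : WithTop J} {p : PB Safe e} {q : ↥(Vd (RR Safe e) ξ)}
    (h : q ≤ resB ξ p) : ∃ s : PB Safe e, s ≤ p ∧ s ≤ toP q ∧
      ∀ ζ, ξ ≤ ζ → s.1.st ζ = p.1.st ζ ∧ s.1.pr ζ = p.1.pr ζ :=
  ⟨glueP (toP q) p ξ, glueP_le (q := toP q) (p := p) h, glueP_le_left (q := toP q) q.2.2,
    fun _ hζ => ⟨glue_st_ge hζ, glue_pr_ge hζ⟩⟩

/-- a name over a stage as a name -/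
def Ynm {ξ : WithTop J} (x : ℕ → Set ↥(Vd (RR Safe e) ξ)) : ℕ → Set (PB Safe e) := fun l =>
  {p | ∃ h : p.1 ∈ Vd (RR Safe e) ξ, (⟨p.1, h⟩ : ↥(Vd (RR Safe e) ξ)) ∈ x l}

theorem meets_Ynm {ξ : WithTop J} {x : ℕ → Set ↥(Vd (RR Safe e) ξ)} {l : ℕ} {p : PB Safe e} :
    p ∈ meets (Ynm x l) ↔ resB ξ p ∈ meets (x l) := by
  constructor
  · intro h q' hq'
    obtain ⟨s, hs1, hs2, _⟩ := exists_glue hq'
    obtain ⟨r, hr, a, ⟨ha, hax⟩, hra⟩ := h s hs1
    exact ⟨resB ξ r, resB_le (hr.trans hs2), ⟨a.1, ha⟩, hax, resB_le (q := ⟨a.1, ha⟩) hra⟩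
  · intro h q hq
    obtain ⟨r, hr, a, ha, hra⟩ := h (resB ξ q) (resB_mono hq)
    obtain ⟨s, hs1, hs2, _⟩ := exists_glue hr
    exact ⟨s, hs1, toP a, ⟨a.2, ha⟩, hs2.trans (toP_mono hra)⟩

theorem fnot_Ynm {ξ : WithTop J} {x : ℕ → Set ↥(Vd (RR Safe e) ξ)} {l : ℕ} {p : PB Safe e} :
    p ∈ fnot (meets (Ynm x l)) ↔ resB ξ p ∈ fnot (meets (x l)) := by
  constructor
  · intro h q' hq' hm
    obtain ⟨s, hs1, hs2, _⟩ := exists_glue hq'
    exact h s hs1 (meets_Ynm.2 (down_meets _ _ hm _ (resB_le hs2)))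
  · intro h q hq hm
    exact h (resB ξ q) (resB_mono hq) (meets_Ynm.1 hm)

theorem init_Ynm {ξ : WithTop J} {x : ℕ → Set ↥(Vd (RR Safe e) ξ)} {σ : List Bool}
    {p : PB Safe e} : p ∈ Init σ (Ynm x) ↔ resB ξ p ∈ Init σ x := by
  constructor
  · intro h i hi
    exact ⟨fun h1 => meets_Ynm.1 ((h i hi).1 h1), fun h1 => fnot_Ynm.1 ((h i hi).2 h1)⟩
  · intro h i hi
    exact ⟨fun h1 => meets_Ynm.2 ((h i hi).1 h1), fun h1 => fnot_Ynm.2 ((h i hi).2 h1)⟩

/-- a condition and a condition of a stage with a common point are compatible -/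
theorem compat_point (hH : Hyp Safe e) {ξ : WithTop J} {p : PB Safe e}
    {a : ↥(Vd (RR Safe e) ξ)} {w : Om (WithTop J)} (hw : w ∈ bs p.1 ξ) (hw' : w ∈ bs a.1 ξ) :
    ∃ s : PB Safe e, s ≤ toP a ∧ s ≤ p := by
  have h2 : bs (resB ξ p).1 ξ = bs p.1 ξ := bs_res le_rfl
  obtain ⟨q, hq, hq1, hq2⟩ := compat_of_point hH.good (resB ξ p).2 a.2
    (by rw [h2]; exact hw) hw'
  obtain ⟨s, hs1, hs2, _⟩ := exists_glue (p := p) (q := ⟨q, hq⟩) hq1
  exact ⟨s, hs2.trans (toP_mono (q := a) hq2), hs1⟩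

/-- a promise of a name puts the named point into the new `F_σ` set -/
theorem inC_promise (hH : Hyp Safe e) {k : K} {z : PN (Vd (RR Safe e) (e k : WithTop J))}
    {p : PB Safe e} (hp : RN (Vd (RR Safe e) (e k : WithTop J)) (e k) z ∈ p.1.pr (e k : WithTop J))
    (hz : p ≤ toP z.1) : p ∈ InC (Sn Safe e k) (Ynm z.2) := by
  refine mem_fex_of_mem (p.1.st (e k : WithTop J)).length
    (down_fall fun _ => down_fall fun _ => down_fex _) ?_
  intro n hn
  refine mem_fex.2 fun q hq => ?_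
  obtain ⟨q1, hq1, hlen⟩ := exists_longP hH (e k) q (n + 1)
  obtain ⟨w, hw⟩ := bs_nonempty hH.good q1.2
  have h1 : w ∈ RN (Vd (RR Safe e) (e k : WithTop J)) (e k) z n
      ((q1.1.st (e k : WithTop J)).getD n 0) :=
    ((hq1.trans hq) (e k : WithTop J)).2.2 _ hp n hn hlen (hw _)
  rcases h1 with ⟨q2, hq2, hc⟩ | ⟨σ, hσ, q2, hq2, hi⟩
  · exfalso
    obtain ⟨s, hs1, hs2⟩ := compat_point hH (p := q1) (a := q2) (hw _) hq2
    exact hc ⟨resB _ s, resB_le hs1, resB_le (hs2.trans (hq1.trans (hq.trans hz)))⟩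
  · obtain ⟨s, hs1, hs2⟩ := compat_point hH (p := q1) (a := q2) (hw _) hq2
    refine ⟨s, hs2.trans hq1, (q1.1.st (e k : WithTop J)).getD n 0, ?_, ?_⟩
    · exact meets_of_le (s := q1) ⟨hlen, rfl⟩ hs2
    · exact mem_fex_of_mem σ (down_fand (down_fground _) (down_Init _ _))
        ⟨hσ, init_Ynm.2 (down_Init _ _ _ hi _ (resB_le hs1))⟩

/-! ### The first clause -/

theorem fInd (hH : Hyp Safe e) (p : PB Safe e) : p ∈ FInd Safe (Sn Safe e) := by
  intro k s hs
  refine mem_fex.2 fun q _ => ?_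
  let p' : PB Safe e := ⟨Helper669.MMain.addG q.1 (e k : WithTop J) {RI Safe e s},
    Helper669.MMain.addG_mem q.2 (WithTop.coe_lt_top _) fun R hR => by
      rw [Finset.mem_singleton] at hR
      rw [hR]
      exact RI_mem hs⟩
  have hp' : p' ≤ q := Helper669.MMain.addG_le q.1 _ _
  refine ⟨p', hp', (q.1.st (e k : WithTop J)).length, fun n hn => mem_fex.2 fun q1 hq1 => ?_⟩
  obtain ⟨q2, hq2, hlen⟩ := exists_longP hH (e k) q1 (n + 1)
  obtain ⟨w, hw⟩ := bs_nonempty hH.good q2.2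
  obtain ⟨M, hM⟩ := ((hq2.trans hq1) (e k : WithTop J)).2.2 (RI Safe e s)
    (Helper669.MMain.addG_pr (Finset.mem_singleton_self _)) n hn hlen (hw _)
  obtain ⟨r, hr, hr1, hr2⟩ := compat_of_point hH.good q2.2
    (stC_mem (RR' := RR Safe e) (e := e) (w := w) (s := s) (M := M) (ξ := ⊤)
      fun β _ => WithTop.coe_lt_top _) (hw _) (mem_bs_stC e w s M ⊤)
  refine ⟨⟨r, hr⟩, le_trans (b := q2) hr1 hq2, M, ?_⟩
  refine mem_fex_of_mem ((q2.1.st (e k : WithTop J)).getD n 0)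
    (down_fand (down_meets _) (down_FPsi _ _ _ _ _ _)) ⟨?_, ?_⟩
  · exact meets_of_le (s := q2) ⟨hlen, rfl⟩ hr1
  · refine mem_fex_of_mem (ev e w) (down_fand (down_fall fun _ => down_fall fun _ =>
      down_fall fun _ => down_fall fun _ => down_meets _) (down_fground _)) ⟨?_, hM⟩
    intro β hβ m hm
    refine meets_of_mem ?_
    obtain ⟨h3, h4⟩ := stC_st (e := e) (w := w) (M := M) hβ hm
    have h5 := (hr2 (e β : WithTop J)).1
    exact ⟨h3.trans_le h5.length_le, (getD_prefix h5 h3).symm.trans h4⟩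

/-! ### The second clause -/

/-- the sets `A l` of conditions below `ξ` decide the name `x` -/
def DecA (A x : ℕ → Set (PB Safe e)) (ξ : WithTop J) : Prop :=
  ∀ l, (A l).Countable ∧ (∀ a ∈ A l, Below a.1 ξ) ∧
    (∀ a ∈ A l, a ∈ meets (x l) ∨ a ∈ fnot (meets (x l))) ∧ ∀ p, ∃ a ∈ A l, Compat a p

/-- countably many conditions deciding a set -/
theorem exists_dec (N : Set (PB Safe e)) : ∃ A : Set (PB Safe e), A.Countable ∧
    (∀ a ∈ A, a ∈ meets N ∨ a ∈ fnot (meets N)) ∧ ∀ p, ∃ a ∈ A, Compat a p := by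
  obtain ⟨A, h1, h2, h3, _⟩ := exists_antichain
    {q : PB Safe e | q ∈ meets N ∨ q ∈ fnot (meets N)} (fun q => by
      by_cases hq : q ∈ fnot (meets N)
      · exact ⟨q, le_rfl, Or.inr hq⟩
      · simp only [fnot, Set.mem_ofPred_eq, not_forall, not_not] at hq
        obtain ⟨q', hq', h⟩ := hq
        exact ⟨q', hq', Or.inl h⟩)
  exact ⟨A, h2, h1, h3⟩

theorem exists_decA (hcof : ∀ S : Set J, #S ≤ ℵ₀ → ∃ b, ∀ s ∈ S, s < b)
    (x : ℕ → Set (PB Safe e)) : ∃ A : ℕ → Set (PB Safe e), ∃ b : J, ∀ ξ : J, b ≤ ξ →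
      DecA A x (ξ : WithTop J) := by
  choose A hA1 hA2 hA3 using fun l => exists_dec (x l)
  obtain ⟨b, hb⟩ := exists_below le_rfl hcof (A := ⋃ l, A l)
    (Cardinal.le_aleph0_iff_set_countable.2 (Set.countable_iUnion fun l => hA1 l))
  refine ⟨A, b, fun ξ hξ l => ⟨hA1 l, fun a ha => ?_, hA2 l, hA3 l⟩⟩
  exact (hb a (Set.mem_iUnion.2 ⟨l, ha⟩)).mono (WithTop.coe_le_coe.2 hξ)

/-- the name over a stage given by a decided name -/
def stn (ξ : WithTop J) (A x : ℕ → Set (PB Safe e)) : ℕ → Set ↥(Vd (RR Safe e) ξ) := fun l =>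
  {q | toP q ∈ A l ∧ toP q ∈ meets (x l)}

theorem stn_countable {ξ : WithTop J} {A x : ℕ → Set (PB Safe e)} (hx : DecA A x ξ) (l : ℕ) :
    (stn ξ A x l).Countable := by
  refine Set.Countable.mono (s₂ := toP ⁻¹' A l) (fun q hq => hq.1)
    ((hx l).1.preimage_of_injOn ?_)
  intro q _ q' _ h
  exact Subtype.ext (congrArg (fun p : PB Safe e => p.1) h)

theorem meets_stn {ξ : WithTop J} {A x : ℕ → Set (PB Safe e)} (hx : DecA A x ξ) {l : ℕ}
    {p : PB Safe e} : p ∈ meets (Ynm (stn ξ A x) l) ↔ p ∈ meets (x l) := by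
  constructor
  · intro h
    refine meets_of_dense fun q hq => ?_
    obtain ⟨r, hr, a, ⟨ha, hax⟩, hra⟩ := h q hq
    exact ⟨r, hr, down_meets _ _ hax.2 r hra⟩
  · intro h q hq
    obtain ⟨_, hA1, hA2, hA3⟩ := hx l
    obtain ⟨a, ha, s, hs1, hs2⟩ := hA3 q
    have hax : a ∈ meets (x l) := by
      rcases hA2 a ha with h1 | h1
      · exact h1
      · exact absurd (down_meets _ _ h s (hs2.trans hq)) (h1 s hs1)
    exact ⟨s, hs2, a, ⟨⟨a.2.1, hA1 a ha⟩, ha, hax⟩, hs1⟩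

theorem init_stn {ξ : WithTop J} {A x : ℕ → Set (PB Safe e)} (hx : DecA A x ξ)
    {σ : List Bool} {p : PB Safe e} : p ∈ Init σ (Ynm (stn ξ A x)) ↔ p ∈ Init σ x := by
  have h1 : ∀ l, meets (Ynm (stn ξ A x) l) = meets (x l) := fun l => by
    ext q
    exact meets_stn hx
  constructor
  · intro h i hi
    refine ⟨fun h2 => ?_, fun h2 => ?_⟩
    · rw [← h1]; exact (h i hi).1 h2
    · rw [← h1]; exact (h i hi).2 h2
  · intro h i hi
    refine ⟨fun h2 => ?_, fun h2 => ?_⟩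
    · rw [h1]; exact (h i hi).1 h2
    · rw [h1]; exact (h i hi).2 h2

/-- deciding finitely many alternatives -/
theorem exists_decide_finset {Q : Type u} [Preorder Q] {ι : Type*} (F : Finset ι) (z : ι → Q)
    (q : Q) : ∃ q' ≤ q, ∀ i ∈ F, q' ≤ z i ∨ ¬ Compat q' (z i) := by
  classical
  induction F using Finset.induction_on with
  | empty => exact ⟨q, le_rfl, by simp⟩
  | insert i F _ ih =>
    obtain ⟨q1, hq1, h⟩ := ih
    by_cases hc : Compat q1 (z i)
    · obtain ⟨q2, h1, h2⟩ := hc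
      refine ⟨q2, h1.trans hq1, fun j hj => ?_⟩
      rcases Finset.mem_insert.1 hj with rfl | hj
      · exact Or.inl h2
      · rcases h j hj with h3 | h3
        · exact Or.inl (h1.trans h3)
        · refine Or.inr ?_
          rintro ⟨t, ht1, ht2⟩
          exact h3 ⟨t, ht1.trans h1, ht2⟩
    · refine ⟨q1, hq1, fun j hj => ?_⟩
      rcases Finset.mem_insert.1 hj with rfl | hj
      · exact Or.inr hc
      · exact h j hj

/-- extending a condition to enter finitely many sets -/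
theorem exists_ext_finset {Q : Type u} [Preorder Q] {ι : Type*} (F : Finset ι)
    (A : ι → Set Q) (hA : ∀ i, Down (A i)) {q : Q}
    (h : ∀ i ∈ F, ∀ r ≤ q, ∃ t ≤ r, t ∈ A i) : ∃ q' ≤ q, ∀ i ∈ F, q' ∈ A i := by
  classical
  induction F using Finset.induction_on with
  | empty => exact ⟨q, le_rfl, by simp⟩
  | insert i F _ ih =>
    obtain ⟨q1, hq1, h1⟩ := ih fun j hj => h j (Finset.mem_insert_of_mem hj)
    obtain ⟨t, ht, h2⟩ := h i (Finset.mem_insert_self i F) q1 hq1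
    refine ⟨t, ht.trans hq1, fun j hj => ?_⟩
    rcases Finset.mem_insert.1 hj with rfl | hj
    · exact h2
    · exact hA j _ (h1 j hj) t ht

theorem hit_ext {U : Finset (List Bool)} {x : ℕ → Set (PB Safe e)} {p : PB Safe e}
    (h : p ∈ Hit U x) : ∀ r ≤ p, ∃ t ≤ r, ∃ σ ∈ U, t ∈ Init σ x := by
  intro r hr
  obtain ⟨t, ht, σ, h1, h2⟩ := mem_fex.1 h r hr
  exact ⟨t, ht, σ, h1, h2⟩

/-- the main step: if `p` forces that `x` does not enter the new `F_σ` set and does not depend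
on finitely many of its points, then a name of `x` below `p` can be added to the family -/
theorem fm_insert (hH : Hyp Safe e) {k : K} {A x : ℕ → Set (PB Safe e)}
    (hx : DecA A x (e k : WithTop J)) {p0 : PB Safe e}
    (hp0 : p0 ∈ fnot (fex fun j : ℕ => fex fun Y : Fin j → ℕ → Set (PB Safe e) =>
      fand (fall fun i => InC (Sn Safe e k) (Y i))
        (fnot (fand (fnot (InC (Sn Safe e k) x)) (fnot (FDep Safe (Sn Safe e) k Y x)))))) :
    Fm Safe e (Vd (RR Safe e) (e k : WithTop J)) k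
      (insert (resB (e k : WithTop J) p0, stn (e k : WithTop J) A x)
        (Bf Safe e (Vd (RR Safe e) (e k : WithTop J)) k)) := by
  classical
  set ξ : WithTop J := (e k : WithTop J) with hξ
  set z0 : PN (Vd (RR Safe e) ξ) := (resB ξ p0, stn ξ A x) with hz0
  refine ⟨fun z hz l => ?_, ?_⟩
  · rcases hz with rfl | hz
    · exact stn_countable hx l
    · exact (Bf_fm Safe e _ k).1 z hz l
  intro F hF hFne
  by_cases hz0F : z0 ∈ F
  swap
  · refine (Bf_fm Safe e _ k).2 F (fun z hz => ?_) hFne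
    rcases hF z hz with h | h
    · rw [h] at hz
      exact absurd hz hz0F
    · exact h
  set F' := F.erase z0 with hF'
  have hF'B : ∀ z ∈ F', z ∈ Bf Safe e (Vd (RR Safe e) ξ) k := by
    intro z hz
    obtain ⟨h1, h2⟩ := Finset.mem_erase.1 hz
    rcases hF z h2 with h | h
    · exact absurd h h1
    · exact h
  have hok : Ok Safe e (Vd (RR Safe e) ξ) k F' := by
    rcases F'.eq_empty_or_nonempty with h | h
    · rw [h]
      exact ok_empty hH.he hH.hanti hH.hnil k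
    · exact (Bf_fm Safe e _ k).2 F' hF'B h
  intro q hq n s hs
  by_cases hcomp : Compat (⟨q, hq⟩ : ↥(Vd (RR Safe e) ξ)) (resB ξ p0)
  swap
  · obtain ⟨q', hq', hle, m, h1, h2⟩ := hok q hq n s hs
    refine ⟨q', hq', hle, m, fun z hz => ?_, h2⟩
    by_cases hzz : z = z0
    · rw [hzz]
      intro w hw
      exact Or.inl ⟨⟨q, hq⟩, bs_le hle ξ hw, hcomp⟩
    · exact h1 z (Finset.mem_erase.2 ⟨hzz, hz⟩)
  obtain ⟨q1, hq1, hq1'⟩ := hcomp
  obtain ⟨q2, hq2, hdec⟩ := exists_decide_finset F' (fun z : PN (Vd (RR Safe e) ξ) => z.1) q1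
  obtain ⟨p2, hp2a, hp2b, _⟩ := exists_glue (p := p0) (q := q2) (hq2.trans hq1')
  -- the names which are defined
  set D := F'.filter fun z => q2 ≤ z.1 with hD
  let p3 : PB Safe e := ⟨Helper669.MMain.addG p2.1 ξ (D.image (RN (Vd (RR Safe e) ξ) ξ)),
    Helper669.MMain.addG_mem p2.2 (WithTop.coe_lt_top _) fun R hR => by
      obtain ⟨z, hz, rfl⟩ := Finset.mem_image.1 hR
      exact RN_mem (hF'B z (Finset.mem_filter.1 hz).1)⟩
  have hp32 : p3 ≤ p2 := Helper669.MMain.addG_le p2.1 _ _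
  have hinC : ∀ z ∈ D, p3 ∈ InC (Sn Safe e k) (Ynm z.2) := by
    intro z hz
    refine inC_promise hH (Helper669.MMain.addG_pr (Finset.mem_image_of_mem _ hz)) ?_
    exact hp32.trans (hp2b.trans (toP_mono (Finset.mem_filter.1 hz).2))
  let f := D.equivFin
  let Y : Fin D.card → ℕ → Set (PB Safe e) := fun i => Ynm (f.symm i).1.2
  have hY : ∀ i, p3 ∈ InC (Sn Safe e k) (Y i) := fun i => hinC _ (f.symm i).2
  -- the dependence fails
  have hnd : p3 ∈ fnot (FDep Safe (Sn Safe e) k Y x) := by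
    intro t ht hdep
    refine hp0 t (ht.trans (hp32.trans hp2a)) ?_
    refine mem_fex_of_mem D.card (down_fex _) (mem_fex_of_mem Y (down_fand
      (down_fall fun _ => down_InC _ _) (down_fnot _)) ⟨fun i => down_InC _ _ _ (hY i) t ht, ?_⟩)
    intro t' ht' hh
    exact hh.2 t' le_rfl (down_fex _ _ hdep t' ht')
  have hnd2 : ¬ p3 ∈ fex fun n : ℕ => fall fun M : ℕ => fall fun U : Finset (List Bool) =>
      fimp (fand (fall fun i => Hit U (Y i)) (Hit U x)) (fnot (FPsi Safe (Sn Safe e) s n M U)) := by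
    intro hc
    refine hnd p3 le_rfl ?_
    exact mem_fex_of_mem s (down_fand (down_fground _) (down_fex _)) ⟨hs, hc⟩
  have hnd3 : ¬ p3 ∈ fall fun M : ℕ => fall fun U : Finset (List Bool) =>
      fimp (fand (fall fun i => Hit U (Y i)) (Hit U x)) (fnot (FPsi Safe (Sn Safe e) s n M U)) := by
    intro hc
    exact hnd2 (mem_fex_of_mem n (down_fall fun _ => down_fall fun _ => down_fimp _ _) hc)
  simp only [fall, Set.mem_ofPred_eq, not_forall] at hnd3
  obtain ⟨M, U, hMU⟩ := hnd3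
  rw [mem_fimp] at hMU
  push Not at hMU
  obtain ⟨p4, hp4, ⟨hp4Y, hp4x⟩, hp4n⟩ := hMU
  have hp4' := hp4n p4 le_rfl
  simp only [fnot, Set.mem_ofPred_eq, not_forall, not_not] at hp4'
  obtain ⟨p5, hp5, hpsi⟩ := hp4'
  obtain ⟨p6, hp6, u, hagree, hu⟩ := mem_fex.1 hpsi p5 le_rfl
  have hu' : Psi Safe u s n M U := hu
  -- catch the names
  obtain ⟨p7, hp7, h7⟩ := exists_ext_finset (Finset.univ : Finset (Fin D.card))
    (fun i => {t : PB Safe e | ∃ σ ∈ U, t ∈ Init σ (Y i)}) (fun i => by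
      rintro t ⟨σ, h1, h2⟩ t' ht'
      exact ⟨σ, h1, down_Init _ _ _ h2 t' ht'⟩) (q := p6) (fun i _ r hr =>
      hit_ext (hp4Y i) r (hr.trans (hp6.trans hp5)))
  obtain ⟨p8, hp8, σ0, hσ0, h8⟩ := hit_ext hp4x p7 (hp7.trans (hp6.trans hp5))
  obtain ⟨p9, hp9, h9⟩ := exists_ext_finset (s ×ˢ Finset.range (M + 1))
    (fun i : K × ℕ => Sn Safe e i.1 i.2 (u i.1 i.2)) (fun i => down_Sn _ _ _) (q := p8)
    (fun i hi r hr => by
      obtain ⟨hi1, hi2⟩ := Finset.mem_product.1 hi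
      have h1 := hagree i.1 hi1 i.2 (by simpa using hi2)
      exact exists_of_meets (down_Sn _ _ _) (down_meets _ _ h1 r (hr.trans (hp8.trans hp7))))
  have hp94 : p9 ≤ p4 := hp9.trans (hp8.trans (hp7.trans (hp6.trans hp5)))
  have hp93 : p9 ≤ p3 := hp94.trans hp4
  have hq' : resB ξ p9 ≤ q2 := resB_le (hp93.trans (hp32.trans hp2b))
  refine ⟨(resB ξ p9).1, (resB ξ p9).2, ?_, Encodable.encode U, fun z hz => ?_, ?_⟩
  · exact (hq'.trans hq2).trans hq1
  · intro w hw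
    by_cases hzz : z = z0
    · rw [hzz]
      refine Or.inr ⟨σ0, by rw [dec_encode]; exact hσ0, resB ξ p9, hw, ?_⟩
      exact init_Ynm.1 ((init_stn hx).2 (down_Init _ _ _ h8 p9 hp9))
    · have hzF' : z ∈ F' := Finset.mem_erase.2 ⟨hzz, hz⟩
      by_cases hzD : q2 ≤ z.1
      · have hzD' : z ∈ D := Finset.mem_filter.2 ⟨hzF', hzD⟩
        obtain ⟨σ, hσ, h10⟩ := h7 (f ⟨z, hzD'⟩) (Finset.mem_univ _)
        have hYz : Y (f ⟨z, hzD'⟩) = Ynm z.2 := by
          simp only [Y, Equiv.symm_apply_apply]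
        rw [hYz] at h10
        refine Or.inr ⟨σ, by rw [dec_encode]; exact hσ, resB ξ p9, hw, ?_⟩
        exact init_Ynm.1 (down_Init _ _ _ h10 p9 (hp9.trans hp8))
      · rcases hdec z hzF' with h10 | h10
        · exact absurd h10 hzD
        · exact Or.inl ⟨q2, bs_le hq' ξ hw, h10⟩
  · intro w hw
    refine ⟨M, ?_⟩
    rw [dec_encode]
    refine hu'.congr fun β hβ m hm => ?_
    obtain ⟨h10, h11⟩ := h9 (β, m) (Finset.mem_product.2 ⟨hβ, by simp; omega⟩)
    have hβξ : (e β : WithTop J) < ξ := WithTop.coe_lt_coe.2 (hH.he (hs β hβ))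
    have h12 := (hw (e β : WithTop J) hβξ).1 m (by
      show m < ((res p9.1 ξ).st (e β : WithTop J)).length
      rw [res_st_lt hβξ]
      exact h10)
    have h13 : w (e β : WithTop J) m = ((res p9.1 ξ).st (e β : WithTop J)).getD m 0 := h12
    rw [res_st_lt hβξ] at h13
    show u β m = w (e β : WithTop J) m
    rw [h13, ← h11]

theorem exists_of_not_mem_fex {Q : Type u} [Preorder Q] {ι : Type*} {φ : ι → Set Q} {p : Q}
    (h : ¬ p ∈ fex φ) : ∃ q ≤ p, ∀ i, q ∈ fnot (φ i) := by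
  by_contra hc
  apply h
  intro q hq hq'
  exact hc ⟨q, hq, hq'⟩

theorem fCov (hH : Hyp Safe e) (hcof : ∀ S : Set J, #S ≤ ℵ₀ → ∃ b, ∀ s ∈ S, s < b)
    (hsp : ∀ b : J, ∃ k : K, b ≤ e k) (p : PB Safe e) : p ∈ FCov Safe (Sn Safe e) := by
  intro x
  by_contra hcon
  obtain ⟨p0, _, hp0⟩ := exists_of_not_mem_fex hcon
  obtain ⟨A, b, hb⟩ := exists_decA hcof x
  obtain ⟨k, hk⟩ := hsp b
  have hx := hb (e k) hk
  have hp0k := hp0 k
  have hfm := fm_insert hH hx (p0 := p0) hp0k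
  have hmem := Bf_max (Set.subset_insert _ _) hfm (Set.mem_insert _ _)
  let p1 : PB Safe e := ⟨Helper669.MMain.addG p0.1 (e k : WithTop J)
    {RN (Vd (RR Safe e) (e k : WithTop J)) (e k) (resB (e k : WithTop J) p0,
      stn (e k : WithTop J) A x)},
    Helper669.MMain.addG_mem p0.2 (WithTop.coe_lt_top _) fun R hR => by
      rw [Finset.mem_singleton] at hR
      rw [hR]
      exact RN_mem hmem⟩
  have hp10 : p1 ≤ p0 := Helper669.MMain.addG_le p0.1 _ _
  have h1 : p1 ∈ InC (Sn Safe e k) (Ynm (stn (e k : WithTop J) A x)) :=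
    inC_promise hH (z := (resB (e k : WithTop J) p0, stn (e k : WithTop J) A x))
      (Helper669.MMain.addG_pr (Finset.mem_singleton_self _))
      (hp10.trans (le_toP_resB (e k : WithTop J) p0))
  have h2 : p1 ∈ InC (Sn Safe e k) x := by
    have h3 : ∀ σ : List Bool, Init σ (Ynm (stn (e k : WithTop J) A x)) = Init σ x := fun σ => by
      ext q
      exact init_stn hx
    have h4 : ∀ a : Finset (List Bool), Hit a (Ynm (stn (e k : WithTop J) A x)) = Hit a x :=
      fun a => by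
        unfold Hit
        congr 1
        funext σ
        rw [h3]
    have h5 : InC (Sn Safe e k) (Ynm (stn (e k : WithTop J) A x)) = InC (Sn Safe e k) x := by
      unfold InC
      congr 1
      funext N
      congr 1
      funext n
      congr 1
      funext _
      congr 1
      funext a
      rw [h4]
    rw [← h5]
    exact h1
  refine hp0k p1 hp10 ?_
  refine mem_fex_of_mem 0 (down_fex _) (mem_fex_of_mem (fun i => i.elim0) (down_fand
    (down_fall fun _ => down_InC _ _) (down_fnot _)) ⟨fun i => i.elim0, ?_⟩)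
  intro t ht hh
  exact hh.1 t le_rfl (down_InC _ _ _ h2 t ht)

end Pool.Agent.H504.BQ
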