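import Mathlib
import Pool.Agent.H504.BQ.Forc

/-!
# The continuum of the extension is larger than the number of the pieces
-/

namespace Pool.Agent.H504.BQ

open Pool.Agent.H504.BP Cardinal Pool.Agent.Helper669.Iter Pool.Agent.Helper669.Forcing Pool.Agent.Helper669.GBase
  Pool.Agent.Helper669.Forcing2

set_option linter.unusedSectionVars false

universe u

variable {J K : Type u} [LinearOrder J] [WellFoundedLT J] [LinearOrder K]
  {Safe : ℕ → List (List Bool) → Prop} {e : K → J}

theorem pr_free {η : J} (hη : ∀ k, e k ≠ η) (r : PB Safe e) : r.1.pr (η : WithTop J) = ∅ := by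
  rw [Finset.eq_empty_iff_forall_notMem]
  intro R hR
  have h1 := r.2.1 (η : WithTop J) R hR
  rw [RR_eq] at h1
  obtain ⟨k, hk, _⟩ := h1
  exact hη k (WithTop.coe_injective hk)

theorem push_free {η : J} (hη : ∀ k, e k ≠ η) (r : PB Safe e) (v : ℕ) :
    ∃ r' : PB Safe e, r' ≤ r ∧ r'.1.st (η : WithTop J) = r.1.st η ++ [v] := by
  refine ⟨⟨push r.1 η v, push_mem r.2 (WithTop.coe_lt_top η) v⟩, ?_, push_st_self _ _ _⟩
  refine push_le (r := r.1) fun R hR => ?_
  rw [pr_free hη] at hR
  exact absurd hR (Finset.notMem_empty R)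

theorem push_to {η : J} (hη : ∀ k, e k ≠ η) (n v : ℕ) : ∀ d : ℕ, ∀ r : PB Safe e,
    (r.1.st (η : WithTop J)).length + d = n → ∃ r' : PB Safe e, r' ≤ r ∧
      n < (r'.1.st (η : WithTop J)).length ∧ (r'.1.st (η : WithTop J)).getD n 0 = v := by
  intro d
  induction d with
  | zero =>
    intro r hr
    obtain ⟨r', h1, h2⟩ := push_free hη r v
    rw [Nat.add_zero] at hr
    refine ⟨r', h1, by rw [h2]; simp; omega, ?_⟩
    rw [h2, List.getD_append_right _ _ _ _ hr.le, hr]
    simp
  | succ d ih =>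
    intro r hr
    obtain ⟨r', h1, h2⟩ := push_free hη r 0
    obtain ⟨r'', h3, h4, h5⟩ := ih r' (by rw [h2]; simp; omega)
    exact ⟨r'', h3.trans h1, h4, h5⟩

/-- the Cohen set added at a free coordinate -/
def Ch (Safe : ℕ → List (List Bool) → Prop) (e : K → J) (η : J) (n : ℕ) : Set (PB Safe e) :=
  {p | n < (p.1.st (η : WithTop J)).length ∧ (p.1.st (η : WithTop J)).getD n 0 = 1}

theorem down_Ch (η : J) (n : ℕ) : Down (Ch Safe e η n) := by
  rintro p ⟨h1, h2⟩ q hq
  obtain ⟨h3, h4⟩ := st_mono hq (η : WithTop J) h1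
  exact ⟨h3, by rw [h4]; exact h2⟩

theorem Ch_ne {η η' : J} (hη : ∀ k, e k ≠ η) (hη' : ∀ k, e k ≠ η') (hne : η ≠ η')
    {s : PB Safe e} {x : ℕ → Set (PB Safe e)} (h : s ∈ SameSet (Ch Safe e η) x)
    (h' : s ∈ SameSet (Ch Safe e η') x) : False := by
  set n := max (s.1.st (η : WithTop J)).length (s.1.st (η' : WithTop J)).length with hn
  obtain ⟨t1, ht1, h1, h2⟩ := push_to hη n 1 (n - (s.1.st (η : WithTop J)).length) s
    (Nat.add_sub_cancel' (le_max_left _ _))
  -- the stem at `η'` may have grown; take a fresh place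
  obtain ⟨t, ht, h3⟩ : ∃ t : PB Safe e, t ≤ s ∧ ∃ n, (n < (t.1.st (η : WithTop J)).length ∧
      (t.1.st (η : WithTop J)).getD n 0 = 1) ∧ (n < (t.1.st (η' : WithTop J)).length ∧
      (t.1.st (η' : WithTop J)).getD n 0 = 0) := by
    have hne' : (η' : WithTop J) ≠ (η : WithTop J) := fun h => hne (WithTop.coe_injective h).symm
    -- push at `η` step by step does not change the stem at `η'`
    have key : ∀ d : ℕ, ∀ r : PB Safe e, (r.1.st (η : WithTop J)).length + d = n →
        ∃ r' : PB Safe e, r' ≤ r ∧ n < (r'.1.st (η : WithTop J)).length ∧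
          (r'.1.st (η : WithTop J)).getD n 0 = 1 ∧
          r'.1.st (η' : WithTop J) = r.1.st (η' : WithTop J) := by
      intro d
      induction d with
      | zero =>
        intro r hr
        refine ⟨⟨push r.1 η 1, push_mem r.2 (WithTop.coe_lt_top η) 1⟩, ?_, ?_, ?_,
          push_st_ne _ _ hne'⟩
        · refine push_le (r := r.1) fun R hR => ?_
          rw [pr_free hη] at hR
          exact absurd hR (Finset.notMem_empty R)
        · show n < ((push r.1 η 1).st η).length
          rw [push_st_self]; simp; omega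
        · show ((push r.1 η 1).st η).getD n 0 = 1
          rw [push_st_self, List.getD_append_right _ _ _ _ (by omega)]
          simp [show n - (r.1.st (η : WithTop J)).length = 0 by omega]
      | succ d ih =>
        intro r hr
        obtain ⟨r'', h3, h4, h5, h6⟩ := ih ⟨push r.1 η 0,
          push_mem r.2 (WithTop.coe_lt_top η) 0⟩ (by
            show ((push r.1 η 0).st η).length + d = n
            rw [push_st_self]; simp; omega)
        refine ⟨r'', h3.trans ?_, h4, h5, h6.trans (push_st_ne _ _ hne')⟩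
        refine push_le (r := r.1) fun R hR => ?_
        rw [pr_free hη] at hR
        exact absurd hR (Finset.notMem_empty R)
    obtain ⟨r1, hr1, h4, h5, h6⟩ := key (n - (s.1.st (η : WithTop J)).length) s
      (Nat.add_sub_cancel' (le_max_left _ _))
    obtain ⟨r2, hr2, h7, h8⟩ := push_to hη' n 0 (n - (r1.1.st (η' : WithTop J)).length) r1
      (Nat.add_sub_cancel' (by rw [h6]; exact le_max_right _ _))
    obtain ⟨h9, h10⟩ := st_mono hr2 (η : WithTop J) h4
    exact ⟨r2, hr2.trans hr1, n, ⟨h9, h10.trans h5⟩, h7, h8⟩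
  obtain ⟨m, h4, h5, h6⟩ := h3
  have h7 : t ∈ meets (Ch Safe e η m) := meets_of_mem h4
  have h8 := (mem_sameSet.1 h m t ht).1 h7
  have h9 := (mem_sameSet.1 h' m t ht).2 h8
  obtain ⟨t', ht', h10⟩ := exists_of_meets (down_Ch η' m) h9
  obtain ⟨_, h11⟩ := st_mono ht' (η' : WithTop J) h5
  have h12 : (t'.1.st (η' : WithTop J)).getD m 0 = 1 := h10.2
  rw [h11, h6] at h12
  exact absurd h12 (by norm_num)

/-- `|Z| < 𝔠` in the extension -/
theorem ltContinuum {X Z : Type u} (c : X → J) (hc : Function.Injective c)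
    (hcns : ∀ x k, e k ≠ c x) (hX : #Z * ℵ₀ < #X) (p : PB Safe e) :
    p ∈ LtContinuum (PB Safe e) Z := by
  intro q _ hq
  obtain ⟨r, _, E, hE⟩ := mem_fex.1 hq q le_rfl
  have h1 : ∀ a : X, ∃ s ≤ r, ∃ y : Z, s ∈ SameSet (Ch Safe e (c a)) (E y) := fun a =>
    mem_fex.1 (hE (Ch Safe e (c a))) r le_rfl
  choose f _ y hy using h1
  obtain ⟨a, a', hne, hyy, s, hs1, hs2⟩ := exists_compat_same hX f y
  refine Ch_ne (fun k => hcns a k) (fun k => hcns a' k) (fun h => hne (hc h))
    (down_SameSet _ _ _ (hy a) s hs1) (x := E (y a)) ?_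
  rw [hyy]
  exact down_SameSet _ _ _ (hy a') s hs2

theorem cardinalsPreserved (p : PB Safe e) : p ∈ CardinalsPreserved.{u, u} (PB Safe e) := by
  intro μ ν hμν hν q _ hq
  obtain ⟨r, _, R, hR1, hR2⟩ := mem_fex.1 hq q le_rfl
  have h1 : ∀ y : ν.out, ∃ s ≤ r, ∃ x : μ.out, s ∈ meets (R x y) := fun y =>
    mem_fex.1 (hR2 y) r le_rfl
  choose f hf x hx using h1
  obtain ⟨y, y', hne, hz, s, hs1, hs2⟩ := exists_compat_same (X := ν.out) (Z := μ.out) (by
    rw [mk_out, mk_out]
    exact mul_lt_of_lt hν.le hμν hν) f x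
  apply hne
  refine IsFun.unique (down_IsFun R r hR1 s (hs1.trans (hf y))) (down_meets _ _ (hx y) s hs1) ?_
  rw [hz]
  exact down_meets _ _ (hx y') s hs2

end Pool.Agent.H504.BQ
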