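import Mathlib
import Pool.Agent.Helper669.EIter
import Pool.Agent.H504.BQ.Big

/-!
# Counting the conditions, and the upper bound for the continuum
-/

namespace Pool.Agent.H504.BQ

open Pool.Agent.H504.BP Cardinal Pool.Agent.Helper669.Iter Pool.Agent.Helper669.Forcing
  Pool.Agent.Helper669.GBase Pool.Agent.Helper669.Forcing2

set_option linter.unusedSectionVars false

universe u

variable {J K : Type u} [LinearOrder J] [WellFoundedLT J] [LinearOrder K]
  {Safe : ℕ → List (List Bool) → Prop} {e : K → J}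

theorem mk_seq_le {κ : Cardinal.{u}} (hpow : κ ^ ℵ₀ = κ) {X : Type u} (hX : #X ≤ κ) :
    #(ℕ → X) ≤ κ := by
  have : #(ℕ → X) = #X ^ ℵ₀ := by
    simp [mk_pi]
  rw [this]
  exact (power_le_power_right hX).trans hpow.le

theorem mk_opt_le {κ : Cardinal.{u}} (hκ : ℵ₀ ≤ κ) {X : Type u} (hX : #X ≤ κ) :
    #(Option X) ≤ κ := by
  rw [mk_option]
  exact (add_le_add hX (one_le_aleph0.trans hκ)).trans (add_eq_self hκ).le

/-- the set enumerated by a sequence -/
def enu {X : Type u} (g : ℕ → Option X) : Set X := {x | ∃ j, g j = some x}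

theorem exists_enu {X : Type u} {A : Set X} (hA : A.Countable) : ∃ g : ℕ → Option X, enu g = A := by
  rcases A.eq_empty_or_nonempty with rfl | hne
  · refine ⟨fun _ => none, ?_⟩
    ext x
    simp [enu]
  · obtain ⟨f, hf⟩ := hA.exists_eq_range hne
    refine ⟨fun j => some (f j), ?_⟩
    ext x
    rw [hf]
    simp [enu]

/-- there are few nice names -/
theorem mk_nice_le {κ : Cardinal.{u}} (hκ : ℵ₀ ≤ κ) (hpow : κ ^ ℵ₀ = κ) {B : Set (Rep (WithTop J))}
    (hB : #B ≤ κ) : #{z : PN B | ∀ l, (z.2 l).Countable} ≤ κ := by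
  classical
  let V : Type u := ↥B × (ℕ → ℕ → Option ↥B)
  have hsurj : ∀ z : {z : PN B | ∀ l, (z.2 l).Countable}, ∃ v : V,
      z.1 = (v.1, fun l => enu (v.2 l)) := by
    rintro ⟨z, hz⟩
    choose g hg using fun l => exists_enu (hz l)
    refine ⟨(z.1, g), ?_⟩
    ext1
    · rfl
    · funext l
      exact (hg l).symm
  choose v hv using hsurj
  have hinj : Function.Injective v := by
    intro z z' h
    apply Subtype.ext
    rw [hv z, hv z', h]
  refine (mk_le_of_injective hinj).trans ?_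
  rw [mk_prod, lift_id, lift_id]
  exact (mul_le_mul' hB (mk_seq_le hpow (mk_seq_le hpow (mk_opt_le hκ hB)))).trans
    (mul_eq_self hκ).le

theorem mk_finset_le' {κ : Cardinal.{u}} (hκ : ℵ₀ ≤ κ) {X : Type u} (hX : #X ≤ κ) :
    #(Finset X) ≤ κ := by
  by_cases hfin : Finite X
  · exact (mk_le_aleph0 (α := Finset X)).trans hκ
  · rw [not_finite_iff_infinite] at hfin
    rw [mk_finset_of_infinite]
    exact hX

theorem mk_Step_le {κ : Cardinal.{u}} (hκ : ℵ₀ ≤ κ) (hpow : κ ^ ℵ₀ = κ) (hK : #K ≤ κ)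
    {B : Set (Rep (WithTop J))} {ξ : WithTop J} (hB : #B ≤ κ) : #(Step Safe e B ξ) ≤ κ := by
  classical
  have hsub : Step Safe e B ξ ⊆ Set.range (fun s : Finset K => RI Safe e s) ∪
      Set.range (fun z : {z : PN B | ∀ l, (z.2 l).Countable} => RN B ξ z.1) := by
    rintro R ⟨k, _, ⟨s, _, rfl⟩ | ⟨z, hz, rfl⟩⟩
    · exact Or.inl ⟨s, rfl⟩
    · exact Or.inr ⟨⟨z, (Bf_fm Safe e B k).1 z hz⟩, rfl⟩
  refine (mk_le_mk_of_subset hsub).trans ((mk_union_le _ _).trans ?_)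
  refine (add_le_add (mk_range_le.trans (mk_finset_le' hκ hK))
    (mk_range_le.trans (mk_nice_le hκ hpow hB))).trans ?_
  exact (add_eq_self hκ).le

theorem mk_RR_le {κ : Cardinal.{u}} (hκ : ℵ₀ ≤ κ) (hpow : κ ^ ℵ₀ = κ) (hK : #K ≤ κ)
    (hJ : #(WithTop J) ≤ κ) (ξ : WithTop J) :
    #(RR Safe e ξ : Set (Pr (WithTop J))) ≤ κ := by
  induction ξ using WellFoundedLT.induction with
  | ind ξ IH =>
    rw [RR_eq]
    exact mk_Step_le hκ hpow hK (Helper669.EIter.mk_Vd_le hκ hJ IH)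

theorem mk_PB_le {κ : Cardinal.{u}} (hκ : ℵ₀ ≤ κ) (hpow : κ ^ ℵ₀ = κ) (hK : #K ≤ κ)
    (hJ : #(WithTop J) ≤ κ) : #(PB Safe e) ≤ κ := by
  have h1 : #(PB Safe e) = #(Vd (RR Safe e) (⊤ : WithTop J)) := rfl
  rw [h1]
  exact Helper669.EIter.mk_Vd_le hκ hJ fun ξ _ => mk_RR_le hκ hpow hK hJ ξ

/-- `𝔠 ≤ |Z|` in the extension: some family of subsets of `ℕ` indexed by `Z` contains every
subset of `ℕ` -/
def ContLe (P : Type u) [Preorder P] (Z : Type u) : Set P :=
  fex fun E : Z → ℕ → Set P => fall fun x : ℕ → Set P => fex fun z => SameSet x (E z)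

theorem contLe {κ : Cardinal.{u}} (hκ : ℵ₀ ≤ κ) (hpow : κ ^ ℵ₀ = κ) (hK : #K ≤ κ)
    (hJ : #(WithTop J) ≤ κ) {Z : Type u} (hZ : κ ≤ #Z) (p : PB Safe e) :
    p ∈ ContLe (PB Safe e) Z := by
  classical
  have h1 : #(ℕ → ℕ → Option (PB Safe e)) ≤ #Z :=
    (mk_seq_le hpow (mk_seq_le hpow (mk_opt_le hκ (mk_PB_le hκ hpow hK hJ)))).trans hZ
  obtain ⟨f⟩ := h1
  have hne : Nonempty (ℕ → ℕ → Option (PB Safe e)) := ⟨fun _ _ => none⟩
  let g : Z → ℕ → ℕ → Option (PB Safe e) := Function.invFun f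
  have hg : Function.Surjective g := Function.invFun_surjective f.injective
  refine mem_fex_of_mem (fun z l => enu (g z l)) (down_fall fun _ => down_fex _) fun x => ?_
  choose A hA1 hA2 hA3 using fun l => exists_dec (x l)
  choose c hc using fun l => exists_enu (A := {a | a ∈ A l ∧ a ∈ meets (x l)})
    ((hA1 l).mono fun a ha => ha.1)
  obtain ⟨z, hz⟩ := hg c
  refine mem_fex_of_mem z (down_SameSet _ _) (mem_sameSet.2 fun l q _ => ?_)
  simp only
  rw [hz, hc l]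
  constructor
  · intro h r hr
    obtain ⟨a, ha, s, hs1, hs2⟩ := hA3 l r
    have hax : a ∈ meets (x l) := by
      rcases hA2 l a ha with h1 | h1
      · exact h1
      · exact absurd (down_meets _ _ h s (hs2.trans hr)) (h1 s hs1)
    exact ⟨s, hs2, a, ⟨ha, hax⟩, hs1⟩
  · intro h
    refine meets_of_dense fun r hr => ?_
    obtain ⟨s, hs, a, ⟨_, ha⟩, hsa⟩ := h r hr
    exact ⟨s, hs, down_meets _ _ ha s hsa⟩

end Pool.Agent.H504.BQ
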