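import Mathlib
import Pool.Agent.H504.BP.Stmt
import Pool.Agent.H504.BQ.Count

/-!
# Cohen reals are added cofinally
-/

namespace Pool.Agent.H504.BQ

open Pool.Agent.H504.BP Cardinal Pool.Agent.Helper669.Iter Pool.Agent.Helper669.Forcing
  Pool.Agent.Helper669.GBase Pool.Agent.Helper669.Forcing2

set_option linter.unusedSectionVars false

universe u

/-- the Cantor space is not covered by closed nowhere dense sets indexed by `Y`: for all
functions `f y` extending strings there is a point which for each `y` extends some `f y s` -/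
def NoCov (Y : Type u) : Prop :=
  ∀ f : Y → List Bool → List Bool, (∀ y s, s <+: f y s) →
    ∃ x : ℕ → Bool, ∀ y, ∃ s, Pre (f y s) x

/-- `NoCov Y` in the extension -/
def FNoCov (P : Type u) [Preorder P] (Y : Type u) : Set P :=
  fall fun f : Y → List Bool → List Bool → Set P =>
    fimp (fand (fall fun y => IsFun (f y)) (fall fun y => fall fun s => fall fun t =>
      fimp (meets (f y s t)) (fground (s <+: t))))
    (fex fun x : ℕ → Set P => fall fun y => fex fun s : List Bool => fex fun t : List Bool =>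
      fand (meets (f y s t)) (Init t x))

variable {J K : Type u} [LinearOrder J] [WellFoundedLT J] [LinearOrder K]
  {Safe : ℕ → List (List Bool) → Prop} {e : K → J}

theorem push_bits {η : J} (hη : ∀ k, e k ≠ η) (l : List Bool) : ∀ r : PB Safe e,
    ∃ r' : PB Safe e, r' ≤ r ∧
      r'.1.st (η : WithTop J) = r.1.st η ++ l.map (fun b => if b then 1 else 0) := by
  induction l with
  | nil => exact fun r => ⟨r, le_rfl, by simp⟩
  | cons b l ih =>
    intro r
    obtain ⟨r1, h1, h2⟩ := push_free hη r (if b then 1 else 0)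
    obtain ⟨r2, h3, h4⟩ := ih r1
    refine ⟨r2, h3.trans h1, ?_⟩
    rw [h4, h2]
    simp

theorem init_Ch {η : J} {t : List Bool} {r : PB Safe e}
    (h : t = (r.1.st (η : WithTop J)).map fun v => decide (v = 1)) :
    r ∈ Init t (Ch Safe e η) := by
  intro i hi
  have hi' : i < (r.1.st (η : WithTop J)).length := by
    have h1 := congrArg List.length h
    rw [List.length_map] at h1
    omega
  have h2 : t.getD i false = decide ((r.1.st (η : WithTop J)).getD i 0 = 1) := by
    rw [List.getD_eq_getElem _ _ hi, List.getD_eq_getElem _ _ hi']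
    simp [h]
  rw [h2]
  refine ⟨fun h3 => ?_, fun h3 q hq hm => ?_⟩
  · exact meets_of_mem ⟨hi', by simpa using h3⟩
  · obtain ⟨q', hq', h4⟩ := exists_of_meets (down_Ch η i) hm
    obtain ⟨_, h5⟩ := st_mono (hq'.trans hq) (η : WithTop J) hi'
    have h6 : (q'.1.st (η : WithTop J)).getD i 0 = 1 := h4.2
    rw [h5] at h6
    simp only [decide_eq_false_iff_not] at h3
    exact h3 h6

theorem fNoCov {κ : Cardinal.{u}} (hκ : ℵ₀ ≤ κ)
    (hcof : ∀ S : Set J, #S ≤ κ → ∃ b, ∀ s ∈ S, s < b) (hfree : ∀ b : J, ∃ η, b ≤ η ∧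
      ∀ k, e k ≠ η) {Y : Type u} (hY : #Y ≤ κ) (p : PB Safe e) : p ∈ FNoCov (PB Safe e) Y := by
  classical
  intro f
  refine mem_fimp.2 fun p0 _ hp0 => ?_
  choose A hA1 hA2 hA3 using fun i : Y × List Bool × List Bool => exists_dec (f i.1 i.2.1 i.2.2)
  have hcard : #(Y × List Bool × List Bool) ≤ κ := by
    rw [mk_prod, lift_uzero]
    have h1 : lift.{u} #(List Bool × List Bool) ≤ κ := (lift_le_aleph0.2 mk_le_aleph0).trans hκ
    exact (mul_le_mul' hY h1).trans (mul_eq_self hκ).le
  obtain ⟨b, hb⟩ := exists_below hκ hcof (A := ⋃ i, A i) (by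
    refine (mk_iUnion_le_sum_mk).trans ?_
    refine (Cardinal.sum_le_sum _ (fun _ => ℵ₀) fun y => ?_).trans ?_
    · exact Cardinal.le_aleph0_iff_set_countable.2 (hA1 y)
    · rw [Cardinal.sum_const']
      exact (mul_le_mul' hcard hκ).trans (mul_eq_self hκ).le)
  obtain ⟨η, hbη, hη⟩ := hfree b
  have hbelow : ∀ i, ∀ a ∈ A i, Below a.1 (η : WithTop J) := fun i a ha =>
    (hb a (Set.mem_iUnion.2 ⟨i, ha⟩)).mono (WithTop.coe_le_coe.2 hbη)
  refine ⟨p0, le_rfl, mem_fex_of_mem (Ch Safe e η) (down_fall fun _ => down_fex _) fun y => ?_⟩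
  refine mem_fex.2 fun p hp => ?_
  set s : List Bool := (p.1.st (η : WithTop J)).map fun v => decide (v = 1) with hs
  obtain ⟨p1, hp1, t, ht⟩ := mem_fex.1 ((hp0.1 y).1 s) p hp
  obtain ⟨_, _, hst⟩ := mem_fimp.1 (hp0.2 y s t) p1 (hp1.trans hp) ht
  have hst' : s <+: t := hst
  obtain ⟨a, ha, s0, hs0a, hs01⟩ := hA3 (y, s, t) p1
  have hax : a ∈ meets (f y s t) := by
    rcases hA2 (y, s, t) a ha with h1 | h1
    · exact h1
    · exact absurd (down_meets _ _ ht s0 hs01) (h1 s0 hs0a)
  obtain ⟨g, hg1, hg2, hg3⟩ := exists_glue (ξ := (η : WithTop J)) (p := p)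
    (q := resB (η : WithTop J) s0) (resB_mono (hs01.trans hp1))
  let a' : ↥(Vd (RR Safe e) (η : WithTop J)) := ⟨a.1, a.2.1, hbelow _ a ha⟩
  have hga : g ≤ a := by
    have h1 : resB (η : WithTop J) s0 ≤ a' := resB_le (q := a') hs0a
    exact hg2.trans (toP_mono h1)
  obtain ⟨l, hl⟩ := hst'
  obtain ⟨r, hr, hrst⟩ := push_bits hη l g
  refine ⟨r, hr.trans hg1, s, mem_fex_of_mem t (down_fand (down_meets _) (down_Init _ _))
    ⟨down_meets _ _ hax r (hr.trans hga), init_Ch ?_⟩⟩
  rw [hrst, (hg3 _ le_rfl).1, List.map_append, ← hs, ← hl]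
  congr 1
  rw [List.map_map]
  symm
  conv_rhs => rw [← List.map_id l]
  apply List.map_congr_left
  intro b _
  cases b <;> simp

end Pool.Agent.H504.BQ
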