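import Mathlib
import Pool.Agent.H504.BP.Alg4
import Pool.Agent.H504.BQ.Cov

/-!
# Partitions of the real line into additive semigroups
-/

namespace Pool.Agent.H504.BQ

open Pool.Agent.H504.BP Set Cardinal

/-- a nonempty set of real numbers which is closed under addition -/
def SemigroupPiece (A : Set ℝ) : Prop := A.Nonempty ∧ ∀ x ∈ A, ∀ y ∈ A, x + y ∈ A

/-- a countable union of closed sets -/
def IsFsigma (A : Set ℝ) : Prop := ∃ F : ℕ → Set ℝ, (∀ n, IsClosed (F n)) ∧ ⋃ n, F n = A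

theorem fsigma_of_sc {A : Set ℝ} (h : IsSigmaCompact A) : IsFsigma A := by
  obtain ⟨F, hF, h⟩ := h
  exact ⟨F, fun n => (hF n).isClosed, h⟩

/-- a partition of the real line into additive `F_σ` semigroups -/
def FsigmaPartition (Q : Set (Set ℝ)) : Prop :=
  (∀ A ∈ Q, IsFsigma A ∧ SemigroupPiece A) ∧ Q.PairwiseDisjoint id ∧ ⋃₀ Q = Set.univ

theorem nsmul_mem' {A : Set ℝ} (hs : ∀ x ∈ A, ∀ y ∈ A, x + y ∈ A) {x : ℝ} (hx : x ∈ A) (n : ℕ) :
    ((n : ℝ) + 1) * x ∈ A := by
  induction n with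
  | zero => simpa using hx
  | succ n ih =>
    have := hs _ ih _ hx
    convert this using 1
    push_cast
    ring

/-- a semigroup containing an interval of positive numbers contains a half line -/
theorem contains_ray {A : Set ℝ} (hs : ∀ x ∈ A, ∀ y ∈ A, x + y ∈ A) {a b : ℝ} (ha : 0 < a)
    (hab : a < b) (h : Ioo a b ⊆ A) : ∃ M : ℝ, ∀ x, M < x → x ∈ A := by
  obtain ⟨N, hN⟩ := exists_nat_gt (a / (b - a))
  have hba : 0 < b - a := by linarith
  refine ⟨(N + 1) * b, fun x hx => ?_⟩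
  obtain ⟨n, hn1, hn2⟩ : ∃ n : ℕ, x / b < n + 1 ∧ (n : ℝ) + 1 < x / a := by
    have hb : 0 < b := by linarith
    have hx0 : 0 < x := by
      have : 0 ≤ ((N : ℝ) + 1) * b := by positivity
      linarith
    refine ⟨⌊x / b⌋₊, Nat.lt_floor_add_one _, ?_⟩
    have h1 : (⌊x / b⌋₊ : ℝ) ≤ x / b := Nat.floor_le (by positivity)
    have h2 : x / b + 1 < x / a := by
      have h3 : a * b < x * (b - a) := by
        have h4 : a < N * (b - a) := by
          rw [div_lt_iff₀ hba] at hN
          exact hN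
        have h5 : ((N : ℝ) + 1) * b * (b - a) < x * (b - a) :=
          mul_lt_mul_of_pos_right hx hba
        nlinarith
      rw [div_add_one hb.ne', div_lt_div_iff₀ hb ha]
      nlinarith
    linarith
  have hb : 0 < b := by linarith
  have hn0 : (0 : ℝ) < n + 1 := by positivity
  have h1 : x / (n + 1) ∈ A := by
    apply h
    constructor
    · rw [lt_div_iff₀ hn0]
      rw [lt_div_iff₀ ha] at hn2
      linarith
    · rw [div_lt_iff₀ hn0]
      rw [div_lt_iff₀ hb] at hn1
      linarith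
  have h2 := nsmul_mem' hs h1 n
  rwa [mul_div_cancel₀ _ hn0.ne'] at h2

/-- if there are at least two pieces, then no piece contains an interval -/
theorem no_interval {Q : Set (Set ℝ)} (hQ : BorelPartition Q) (h1 : (1 : Cardinal) < #Q)
    {B : Set ℝ} (hB : B ∈ Q) {a b : ℝ} (hab : a < b) : ¬ Ioo a b ⊆ B := by
  intro h
  obtain ⟨hBm, hBne, hBpos, hBadd, _⟩ := hQ.1 B hB
  -- shrink the interval
  have ha : 0 ≤ a := by
    by_contra hcon
    push Not at hcon
    obtain ⟨c, hc1, hc2⟩ := exists_between (lt_min hab hcon)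
    have h2 := hBpos (h ⟨hc1, hc2.trans_le (min_le_left _ _)⟩)
    exact absurd h2 (not_lt.2 (hc2.trans_le (min_le_right _ _)).le)
  obtain ⟨M, hM⟩ := contains_ray hBadd (a := (a + b) / 2) (b := b) (by linarith) (by linarith)
    ((Ioo_subset_Ioo_left (by linarith)).trans h)
  rw [one_lt_iff_nontrivial] at h1
  obtain ⟨⟨B', hB'⟩, hne⟩ := exists_ne (⟨B, hB⟩ : Q)
  obtain ⟨_, ⟨x, hx⟩, hpos', hadd', _⟩ := hQ.1 B' hB'
  have hx0 : 0 < x := hpos' hx
  obtain ⟨n, hn⟩ := exists_nat_gt (M / x)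
  rw [div_lt_iff₀ hx0] at hn
  have h2 : ((n : ℝ) + 1) * x ∈ B' := nsmul_mem' hadd' hx n
  have h3 : ((n : ℝ) + 1) * x ∈ B := hM _ (by nlinarith)
  have h4 : B' ≠ B := fun h => hne (Subtype.ext h)
  exact Set.disjoint_left.1 (hQ.2.1 hB' hB h4) h2 h3

/-- the reals with a given initial segment of digits fill an interval -/
theorem interval_rv (s : List Bool) : ∃ a b : ℝ, a < b ∧ ∀ r ∈ Ioo a b,
    ∃ z : ℕ → Bool, Pre s z ∧ rv z = r := by
  classical
  let app : (ℕ → Bool) → ℕ → Bool := fun w i => if i < s.length then s.getD i false else w (i - s.length)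
  let dg : (ℕ → Bool) → ℕ → Fin 2 := fun x i => if x i then 1 else 0
  set v : ℝ := ∑ i ∈ Finset.range s.length, Real.ofDigitsTerm (dg (app fun _ => false)) i with hv
  have key : ∀ w, rv (app w) = v + ((2 : ℝ) ^ s.length)⁻¹ * rv w := by
    intro w
    have h1 := Real.ofDigits_eq_sum_add_ofDigits (b := 2) (dg (app w)) s.length
    have h2 : (fun i => dg (app w) (i + s.length)) = dg w := by
      funext i
      have h3 : app w (i + s.length) = w i := by
        simp only [app]
        rw [if_neg (by omega : ¬ i + s.length < s.length), Nat.add_sub_cancel]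
      exact congrArg (fun b : Bool => if b then (1 : Fin 2) else 0) h3
    rw [h2] at h1
    have h3 : rv (app w) = Real.ofDigits (dg (app w)) := rfl
    have h4 : rv w = Real.ofDigits (dg w) := rfl
    rw [h3, h1, h4, hv]
    congr 1
    · refine Finset.sum_congr rfl fun i hi => ?_
      have hi' := Finset.mem_range.1 hi
      simp only [Real.ofDigitsTerm, dg, app, if_pos hi']
  refine ⟨v, v + ((2 : ℝ) ^ s.length)⁻¹, by
    have : (0 : ℝ) < ((2 : ℝ) ^ s.length)⁻¹ := by positivity
    linarith, fun r hr => ?_⟩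
  have hpos : (0 : ℝ) < (2 : ℝ) ^ s.length := by positivity
  obtain ⟨w, hw⟩ := rv_surj (r := (r - v) * 2 ^ s.length)
    (mul_nonneg (by linarith [hr.1]) hpos.le) (by
      have h1 : r - v ≤ ((2 : ℝ) ^ s.length)⁻¹ := by linarith [hr.2]
      calc (r - v) * 2 ^ s.length ≤ ((2 : ℝ) ^ s.length)⁻¹ * 2 ^ s.length :=
            mul_le_mul_of_nonneg_right h1 hpos.le
        _ = 1 := inv_mul_cancel₀ hpos.ne')
  refine ⟨app w, fun i hi => ?_, ?_⟩
  · simp only [app, if_pos hi]
  · rw [key, hw]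
    field_simp
    ring

/-- points outside a closed set have an initial segment with this property -/
theorem exists_seg {C : Set (ℕ → Bool)} (hC : IsClosed C) {z : ℕ → Bool} (hz : z ∉ C)
    {s : List Bool} (hs : Pre s z) : ∃ t : List Bool, s <+: t ∧ ∀ z', Pre t z' → z' ∉ C := by
  by_contra hcon
  push Not at hcon
  have h1 : ∀ ℓ : ℕ, ∃ z', Pre (restr (s.length + ℓ) z) z' ∧ z' ∈ C := fun ℓ => by
    refine hcon _ ?_
    have h2 := pre_iff.1 hs
    have h3 : restr s.length z <+: restr (s.length + ℓ) z := restr_prefix (by omega) z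
    rw [← h2] at h3
    exact h3
  choose y hy1 hy2 using h1
  apply hz
  refine hC.mem_of_tendsto (f := y) (b := Filter.atTop) ?_ (Filter.Eventually.of_forall hy2)
  rw [tendsto_pi_nhds]
  intro i
  refine tendsto_const_nhds.congr' ?_
  filter_upwards [Filter.eventually_gt_atTop i] with ℓ hℓ
  have h2 := hy1 ℓ i (by rw [length_restr]; omega)
  rw [getD_restr (by omega)] at h2
  exact h2

/-- a family of sigma-compact sets without interior does not cover the positive numbers -/
theorem not_cover {Y : Type} [Infinite Y] (hY : NoCov Y) {Q : Set (Set ℝ)} (hQ : BorelPartition Q)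
    (hsc : ∀ B ∈ Q, IsSigmaCompact B) (h1 : (1 : Cardinal) < #Q) : ¬ #Q ≤ #Y := by
  classical
  intro hle
  obtain ⟨ι⟩ := hle
  -- the compact sets
  choose F hF hFB using fun B : Q => hsc B.1 B.2
  have hprod : #(Q × ℕ) ≤ #Y := by
    rw [mk_prod, lift_id, lift_id]
    have h2 : #Q ≤ #Y := ⟨ι⟩
    refine (mul_le_mul' h2 (mk_le_aleph0 (α := ℕ))).trans ?_
    rw [mul_eq_left (aleph0_le_mk Y) (aleph0_le_mk Y) aleph0_ne_zero]
  obtain ⟨j⟩ := hprod
  have hBne : Nonempty (Q × ℕ) := by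
    have h2 : (0 : Cardinal) < #Q := zero_lt_one.trans h1
    have h3 : Nonempty Q := mk_ne_zero_iff.1 h2.ne'
    exact ⟨(h3.some, 0)⟩
  let d : Y → Q × ℕ := Function.invFun j
  have hd : Function.Surjective d := Function.invFun_surjective j.injective
  -- nowhere dense preimages
  have hnd : ∀ (i : Q × ℕ) (s : List Bool), ∃ t : List Bool, s <+: t ∧
      ∀ z, Pre t z → 1 + rv z ∉ F i.1 i.2 := by
    intro i s
    obtain ⟨a, b, hab, hint⟩ := interval_rv s
    have h2 : ¬ Ioo (1 + a) (1 + b) ⊆ F i.1 i.2 := fun h =>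
      no_interval hQ h1 i.1.2 (by linarith : 1 + a < 1 + b)
        (h.trans (by rw [← hFB i.1]; exact subset_iUnion (F i.1) i.2))
    obtain ⟨r, hr, hrF⟩ := not_subset.1 h2
    obtain ⟨z, hz, hzr⟩ := hint (r - 1) ⟨by linarith [hr.1], by linarith [hr.2]⟩
    refine exists_seg (C := {z : ℕ → Bool | 1 + rv z ∈ F i.1 i.2})
      ((hF i.1 i.2).isClosed.preimage (continuous_const.add continuous_rv)) ?_ hz
    show 1 + rv z ∉ F i.1 i.2
    rw [hzr]
    simpa using hrF
  choose f hf1 hf2 using hnd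
  obtain ⟨x, hx⟩ := hY (fun y => f (d y)) fun y s => hf1 (d y) s
  have hx0 : (1 + rv x) ∈ ⋃₀ Q := by
    rw [hQ.2.2]
    exact lt_of_lt_of_le one_pos (by linarith [rv_nonneg x] : (1 : ℝ) ≤ 1 + rv x)
  obtain ⟨B, hB, hxB⟩ := hx0
  have hxB' : 1 + rv x ∈ ⋃ n, F ⟨B, hB⟩ n := by
    rw [hFB ⟨B, hB⟩]
    exact hxB
  obtain ⟨n, hn⟩ := mem_iUnion.1 hxB'
  obtain ⟨y, hy⟩ := hd (⟨B, hB⟩, n)
  obtain ⟨s, hs⟩ := hx y
  exact hf2 (d y) s x hs (by rw [hy]; exact hn)

/-- the set of the negatives -/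
def nB (B : Set ℝ) : Set ℝ := {x | -x ∈ B}

/-- the partition of the real line obtained from a partition of the positive numbers -/
def double (Q : Set (Set ℝ)) : Set (Set ℝ) := (Q ∪ nB '' Q) ∪ {{0}}

theorem mem_double {Q : Set (Set ℝ)} {A : Set ℝ} :
    A ∈ double Q ↔ A ∈ Q ∨ (∃ B ∈ Q, nB B = A) ∨ A = {0} := by
  simp only [double, mem_union, mem_image, mem_singleton_iff, or_assoc]

theorem fsigma_double {Q : Set (Set ℝ)} (hQ : BorelPartition Q)
    (hsc : ∀ B ∈ Q, IsSigmaCompact B) : FsigmaPartition (double Q) := by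
  have hpos : ∀ B ∈ Q, ∀ x ∈ B, 0 < x := fun B hB x hx => (hQ.1 B hB).2.2.1 hx
  have hdis : ∀ B ∈ Q, ∀ B' ∈ Q, ∀ x, x ∈ B → x ∈ B' → B = B' := by
    intro B hB B' hB' x hx hx'
    by_contra hne
    exact Set.disjoint_left.1 (hQ.2.1 hB hB' hne) hx hx'
  refine ⟨fun A hA => ?_, ?_, ?_⟩
  · rcases mem_double.1 hA with hA | ⟨B, hB, rfl⟩ | rfl
    · exact ⟨fsigma_of_sc (hsc A hA), (hQ.1 A hA).2.1, (hQ.1 A hA).2.2.2.1⟩
    · refine ⟨fsigma_of_sc (sc_preimage continuous_neg (hsc B hB)), ?_, fun x hx y hy => ?_⟩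
      · obtain ⟨x, hx⟩ := (hQ.1 B hB).2.1
        exact ⟨-x, by simpa [nB] using hx⟩
      · show -(x + y) ∈ B
        rw [neg_add]
        exact (hQ.1 B hB).2.2.2.1 _ hx _ hy
    · refine ⟨fsigma_of_sc isCompact_singleton.isSigmaCompact, ⟨0, rfl⟩, fun x hx y hy => ?_⟩
      rw [mem_singleton_iff] at hx hy ⊢
      rw [hx, hy, add_zero]
  · intro A hA A' hA' hne
    show Disjoint (id A) (id A')
    rw [id, id, Set.disjoint_left]
    intro x hx hx'
    apply hne
    rcases mem_double.1 hA with hA | ⟨B, hB, rfl⟩ | rfl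
    · rcases mem_double.1 hA' with hA' | ⟨B', hB', rfl⟩ | rfl
      · exact hdis A hA A' hA' x hx hx'
      · have h1 := hpos A hA x hx
        have h2 := hpos B' hB' _ hx'
        linarith
      · have h1 := hpos A hA x hx
        rw [mem_singleton_iff] at hx'
        linarith
    · rcases mem_double.1 hA' with hA' | ⟨B', hB', rfl⟩ | rfl
      · have h1 := hpos A' hA' x hx'
        have h2 := hpos B hB _ hx
        linarith
      · rw [hdis B hB B' hB' (-x) hx hx']
      · have h1 := hpos B hB _ hx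
        rw [mem_singleton_iff] at hx'
        linarith
    · rw [mem_singleton_iff] at hx
      rcases mem_double.1 hA' with hA' | ⟨B', hB', rfl⟩ | rfl
      · have h1 := hpos A' hA' x hx'
        linarith
      · have h1 := hpos B' hB' _ hx'
        linarith
      · rfl
  · rw [eq_univ_iff_forall]
    intro x
    rcases lt_trichotomy x 0 with h | h | h
    · have h1 : -x ∈ ⋃₀ Q := by
        rw [hQ.2.2]
        exact neg_pos.2 h
      obtain ⟨B, hB, hxB⟩ := h1
      exact ⟨nB B, mem_double.2 (Or.inr (Or.inl ⟨B, hB, rfl⟩)), hxB⟩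
    · exact ⟨{0}, mem_double.2 (Or.inr (Or.inr rfl)), h⟩
    · have h1 : x ∈ ⋃₀ Q := by
        rw [hQ.2.2]
        exact h
      obtain ⟨B, hB, hxB⟩ := h1
      exact ⟨B, mem_double.2 (Or.inl hB), hxB⟩

/-- The combinatorial hypotheses give a partition of the real line into exactly `|K|` additive
`F_σ` semigroups. -/
theorem group_partition {K Y : Type} [LinearOrder K] [Infinite Y] (hKY : #K = Order.succ #Y)
    (h : HH SafeA K) (hY : NoCov Y) : ∃ Q : Set (Set ℝ), FsigmaPartition Q ∧ #Q = #K := by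
  have hKinf : Infinite K := by
    rw [infinite_iff, hKY]
    exact (aleph0_le_mk Y).trans (Order.le_succ _)
  obtain ⟨⟨g, hI, hC⟩, _⟩ := h
  have hQ := part_borel hI hC
  have h1 := one_lt_part hI hC
  refine ⟨double (part hI hC), fsigma_double hQ fun B hB => part_sc hI hC hB, ?_⟩
  have hle : #(part hI hC) ≤ #K := by
    have := part_le hI hC
    simpa using this
  have hgt : #K ≤ #(part hI hC) := by
    rw [hKY]
    exact Order.succ_le_of_lt (not_le.1 (not_cover hY hQ (fun B hB => part_sc hI hC hB) h1))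
  have hK0 : ℵ₀ ≤ #K := aleph0_le_mk K
  refine le_antisymm ?_ (hgt.trans (mk_le_mk_of_subset (fun B hB => mem_double.2 (Or.inl hB))))
  have h2 : #(part hI hC ∪ nB '' part hI hC : Set (Set ℝ)) ≤ #K :=
    (mk_union_le _ _).trans ((add_le_add hle (mk_image_le.trans hle)).trans
      (add_eq_self hK0).le)
  have h3 : #({{0}} : Set (Set ℝ)) ≤ #K := by
    rw [mk_singleton]
    exact one_le_aleph0.trans hK0
  exact (mk_union_le _ _).trans ((add_le_add h2 h3).trans (add_eq_self hK0).le)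

end Pool.Agent.H504.BQ
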