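import Mathlib
import Pool.Agent.H504.BQ.Cov

/-!
# The forcing notion
-/

namespace Pool.Agent.H504.BQ

open Pool.Agent.H504.BP Cardinal Pool.Agent.Helper669.Iter Pool.Agent.Helper669.Forcing
  Pool.Agent.Helper669.GBase Pool.Agent.Helper669.Forcing2

set_option linter.unusedSectionVars false

universe u

theorem wf_lex2 {X K : Type u} [LinearOrder X] [WellFoundedLT X] [LinearOrder K]
    [WellFoundedLT K] : WellFoundedLT (Lex (X ⊕ Lex (K × Bool))) :=
  ⟨Sum.lex_wf (wellFounded_lt (α := X)) (wellFounded_lt (α := Lex (K × Bool)))⟩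

theorem exists_poset {Safe : ℕ → List (List Bool) → Prop}
    (hanti : ∀ n m L, n ≤ m → Safe m L → Safe n L) (hnil : ∀ n, Safe n [])
    {K : Type u} [LinearOrder K] [WellFoundedLT K] [Nonempty K] {μ κ : Cardinal.{u}}
    (hμ : ℵ₀ ≤ μ) (hcof : ∀ S : Set K, #S ≤ μ → ∃ b, ∀ s ∈ S, s < b)
    (hκ : ℵ₀ < κ) (hpow : κ ^ ℵ₀ = κ) (hK : #K < κ) :
    ∃ (P : Type u) (_ : Preorder P), Nonempty P ∧
      ∀ p : P, p ∈ CardinalsPreserved.{u, u} P ∧ p ∈ FH Safe P K ∧
        (∀ Y : Type u, #Y ≤ μ → p ∈ FNoCov P Y) ∧ ∀ Z : Type u, κ ≤ #Z → p ∈ ContLe P Z := by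
  classical
  let X : Type u := κ.ord.ToType
  have hXκ : #X = κ := by
    show #(κ.ord.ToType) = _
    rw [mk_toType, card_ord]
  have hX : #K * ℵ₀ < #X := by
    rw [hXκ]
    exact mul_lt_of_lt hκ.le hK hκ
  have hwf : WellFoundedLT (Lex (X ⊕ Lex (K × Bool))) := wf_lex2
  let inr' : Lex (K × Bool) → Lex (X ⊕ Lex (K × Bool)) := fun y => toLex (Sum.inr y)
  let e : K → Lex (X ⊕ Lex (K × Bool)) := fun k => inr' (toLex (k, true))
  have hpair : ∀ {k k' : K} (i j : Bool), k < k' → (toLex (k, i) : Lex (K × Bool)) < toLex (k', j) :=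
    fun {k k'} i j h => Prod.Lex.toLex_lt_toLex.2 (Or.inl h)
  have hinr : ∀ {y y' : Lex (K × Bool)}, y < y' → inr' y < inr' y' :=
    fun {y y'} h => Sum.Lex.inr_lt_inr_iff.2 h
  have he : StrictMono e := fun a b h => hinr (hpair true true h)
  have hH : Hyp Safe e := ⟨he, hanti, hnil⟩
  have hcases : ∀ s : Lex (X ⊕ Lex (K × Bool)), (∃ x : X, s = toLex (Sum.inl x)) ∨
      ∃ k i, s = inr' (toLex (k, i)) := by
    intro s
    rcases h : ofLex s with x | y
    · left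
      refine ⟨x, ?_⟩
      rw [← h]; rfl
    · right
      refine ⟨(ofLex y).1, (ofLex y).2, ?_⟩
      show s = toLex (Sum.inr (toLex ((ofLex y).1, (ofLex y).2)))
      have h1 : (toLex ((ofLex y).1, (ofLex y).2) : Lex (K × Bool)) = y := rfl
      rw [h1, ← h]; rfl
  have hinl : ∀ (x : X) (y : Lex (K × Bool)),
      (toLex (Sum.inl x) : Lex (X ⊕ Lex (K × Bool))) < inr' y := fun x y => Sum.Lex.inl_lt_inr x y
  have hcof' : ∀ S : Set (Lex (X ⊕ Lex (K × Bool))), #S ≤ μ → ∃ b, ∀ s ∈ S, s < b := by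
    intro S hS
    let pr : Lex (X ⊕ Lex (K × Bool)) → K := fun s =>
      Sum.elim (fun _ => Classical.arbitrary K) (fun y : Lex (K × Bool) => (ofLex y).1) (ofLex s)
    obtain ⟨b, hb⟩ := hcof (pr '' S) (mk_image_le.trans hS)
    refine ⟨e b, fun s hs => ?_⟩
    have h1 := hb (pr s) (Set.mem_image_of_mem _ hs)
    rcases hcases s with ⟨x, rfl⟩ | ⟨k, i, rfl⟩
    · exact hinl _ _
    · exact hinr (hpair i true h1)
  have hsp : ∀ b : Lex (X ⊕ Lex (K × Bool)), ∃ k : K, b ≤ e k := by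
    intro b
    rcases hcases b with ⟨x, rfl⟩ | ⟨k, i, rfl⟩
    · exact ⟨Classical.arbitrary K, (hinl _ _).le⟩
    · refine ⟨k, ?_⟩
      cases i
      · have h1 : (toLex (k, false) : Lex (K × Bool)) < toLex (k, true) :=
          Prod.Lex.toLex_lt_toLex.2 (Or.inr ⟨rfl, Bool.false_lt_true⟩)
        exact (hinr h1).le
      · exact le_rfl
  have hfree : ∀ b : Lex (X ⊕ Lex (K × Bool)), ∃ η, b ≤ η ∧ ∀ k, e k ≠ η := by
    intro b
    rcases hcases b with ⟨x, rfl⟩ | ⟨k, i, rfl⟩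
    · refine ⟨_, le_rfl, fun k h => ?_⟩
      exact absurd (toLex.injective h) (by simp)
    · obtain ⟨k', hk'⟩ := hcof {k} (by
        rw [mk_singleton]
        exact one_le_aleph0.trans hμ)
      refine ⟨inr' (toLex (k', false)), (hinr (hpair i false (hk' k rfl))).le, fun k'' h => ?_⟩
      have h1 := Sum.inr_injective (toLex.injective h)
      have h2 := congrArg Prod.snd (toLex.injective h1)
      simp at h2
  have hJ : #(WithTop (Lex (X ⊕ Lex (K × Bool)))) ≤ κ := by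
    have h1 : #(Lex (X ⊕ Lex (K × Bool))) = #(X ⊕ (K × Bool)) := rfl
    have h2 : #(WithTop (Lex (X ⊕ Lex (K × Bool)))) =
      #(Option (Lex (X ⊕ Lex (K × Bool)))) := rfl
    rw [h2]
    refine mk_opt_le hκ.le ?_
    rw [h1, mk_sum, lift_id, lift_id, hXκ, mk_prod]
    have h3 : lift.{0} #K * lift.{u} #Bool ≤ κ := by
      rw [lift_uzero]
      refine (mul_le_mul' hK.le ((lift_le_aleph0.2 mk_le_aleph0).trans hκ.le)).trans ?_
      exact (mul_eq_self hκ.le).le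
    exact (add_le_add le_rfl h3).trans (add_eq_self hκ.le).le
  have hcof0 : ∀ S : Set (Lex (X ⊕ Lex (K × Bool))), #S ≤ ℵ₀ → ∃ b, ∀ s ∈ S, s < b :=
    fun S hS => hcof' S (hS.trans hμ)
  refine ⟨PB Safe e, inferInstance, inferInstance, fun p => ⟨cardinalsPreserved p, ⟨?_, ?_⟩,
    fun Y hY => fNoCov hμ hcof' hfree hY p, fun Z hZ => contLe hκ.le hpow hK.le hJ hZ p⟩⟩
  · exact mem_fex_of_mem (Sn Safe e) (down_fand (down_fall fun _ => down_IsFun _)
      (down_fand (down_fall fun _ => down_fall fun _ => down_fall fun _ => down_fex _)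
        (down_fall fun _ => down_fex _)))
      ⟨fun k => isFun_Sn hH k p, fInd hH p, fCov hH hcof0 hsp p⟩
  · refine ltContinuum (c := fun x : X => (toLex (Sum.inl x) : Lex (X ⊕ Lex (K × Bool))))
      (fun a b h => ?_) (fun x k h => ?_) hX p
    · exact Sum.inl_injective (toLex.injective h)
    · exact absurd (toLex.injective h) (by simp)

/-! ### Cardinal arithmetic -/

theorem bounded_of {κ : Cardinal.{u}} (hκ : ℵ₀ ≤ κ) (S : Set (Order.succ κ).ord.ToType)
    (hS : #S ≤ κ) : ∃ b, ∀ s ∈ S, s < b := by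
  have h1 : Cardinal.IsRegular (Order.succ κ) := isRegular_succ hκ
  by_contra hcon
  push Not at hcon
  have hc : IsCofinal S := fun b => by
    obtain ⟨s, hs, hb⟩ := hcon b
    exact ⟨s, hs, hb⟩
  have h2 := Order.cof_le hc
  rw [Ordinal.cof_toType, h1.cof_ord] at h2
  exact absurd (h2.trans hS) (not_le.2 (Order.lt_succ _))

theorem succ_pow {κ : Cardinal.{u}} (hκ : ℵ₀ ≤ κ) (h : κ ^ ℵ₀ ≤ Order.succ κ) :
    Order.succ κ ^ ℵ₀ = Order.succ κ := by
  set W : Type u := (Order.succ κ).ord.ToType with hW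
  have hWc : #W = Order.succ κ := by rw [hW, mk_toType, card_ord]
  have hs : ℵ₀ ≤ Order.succ κ := hκ.trans (Order.le_succ _)
  refine le_antisymm ?_ (self_le_power _ one_le_aleph0)
  have h1 : #(ℕ → W) = Order.succ κ ^ ℵ₀ := by
    simp [mk_pi, hWc]
  rw [← h1]
  let f : (Σ b : W, (ℕ → Set.Iio b)) → (ℕ → W) := fun p n => (p.2 n).1
  have hf : Function.Surjective f := by
    intro g
    obtain ⟨b, hb⟩ := bounded_of hκ (Set.range g)
      ((le_aleph0_iff_set_countable.2 (Set.countable_range g)).trans hκ)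
    exact ⟨⟨b, fun n => ⟨g n, hb _ ⟨n, rfl⟩⟩⟩, rfl⟩
  refine (mk_le_of_surjective hf).trans ?_
  rw [mk_sigma]
  refine (Cardinal.sum_le_sum _ (fun _ => Order.succ κ) fun b => ?_).trans ?_
  · have h2 : #(Set.Iio b) ≤ κ := Order.lt_succ_iff.1 (mk_Iio_toType_ord_lt b)
    have h3 : #(ℕ → Set.Iio b) = #(Set.Iio b) ^ ℵ₀ := by simp [mk_pi]
    rw [h3]
    exact (power_le_power_right h2).trans h
  · rw [Cardinal.sum_const', hWc]
    exact (mul_eq_self hs).le

/-- the continuum hypothesis implies `ℵ₃ ^ ℵ₀ = ℵ₃` -/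
theorem pow_of_ch (h : (𝔠 : Cardinal.{u}) = ℵ₁) :
    (Order.succ (Order.succ ℵ₁) : Cardinal.{u}) ^ ℵ₀ = Order.succ (Order.succ ℵ₁) := by
  have h0 : (ℵ₀ : Cardinal.{u}) ≤ ℵ₁ := aleph0_le_aleph 1
  have h1 : (ℵ₁ : Cardinal.{u}) ^ ℵ₀ = ℵ₁ := by rw [← h, continuum_power_aleph0]
  have h2 : (Order.succ ℵ₁ : Cardinal.{u}) ^ ℵ₀ = Order.succ ℵ₁ :=
    succ_pow h0 (by rw [h1]; exact Order.le_succ _)
  exact succ_pow (h0.trans (Order.le_succ _)) (by rw [h2]; exact Order.le_succ _)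

end Pool.Agent.H504.BQ
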